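import Pool.Agent.FOL.Inj

/-!
# Two lemmas on vectors contracted or preserved up to scale by the operators of `P` (rank one)
-/

set_option autoImplicit false
set_option linter.unusedSectionVars false

open Set Filter Topology

namespace Pool.Agent.FOL

open Pool.Agent.Helper2.RO

section Near

variable {E : Type*} [NormedAddCommGroup E] [InnerProductSpace ℝ E]

/-- Vectors close to parallel vectors are nearly parallel. -/
theorem near_parallel {x x' u u' : E} {δ : ℝ} (hu : ‖x - u‖ ≤ δ) (hu' : ‖x' - u'‖ ≤ δ)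
    (hp : ‖u‖ * ‖u'‖ ≤ |inner ℝ u u'|) :
    ‖x‖ * ‖x'‖ - 2 * δ * ‖x'‖ - 2 * δ * (‖x‖ + δ) ≤ |inner ℝ x x'| := by
  have hδ : 0 ≤ δ := (norm_nonneg _).trans hu
  have e1 : inner ℝ u u' = inner ℝ x x' - inner ℝ (x - u) x' - inner ℝ u (x' - u') := by
    rw [inner_sub_left, inner_sub_right]
    ring
  have h1 : |inner ℝ u u'| ≤ |inner ℝ x x'| + ‖x - u‖ * ‖x'‖ + ‖u‖ * ‖x' - u'‖ := by
    rw [e1]
    have a1 := abs_real_inner_le_norm (x - u) x'
    have a2 := abs_real_inner_le_norm u (x' - u')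
    have a3 := abs_sub (inner ℝ x x' - inner ℝ (x - u) x') (inner ℝ u (x' - u'))
    have a4 := abs_sub (inner ℝ x x') (inner ℝ (x - u) x')
    linarith
  have h2 : ‖x‖ - δ ≤ ‖u‖ := by
    have := norm_sub_norm_le x u
    linarith
  have h3 : ‖u‖ ≤ ‖x‖ + δ := by
    have := norm_sub_norm_le u x
    rw [norm_sub_rev] at this
    linarith
  have h4 : ‖x'‖ - δ ≤ ‖u'‖ := by
    have := norm_sub_norm_le x' u'
    linarith
  have h5 : ‖x - u‖ * ‖x'‖ ≤ δ * ‖x'‖ := mul_le_mul_of_nonneg_right hu (norm_nonneg _)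
  have h6 : ‖u‖ * ‖x' - u'‖ ≤ ‖u‖ * δ := mul_le_mul_of_nonneg_left hu' (norm_nonneg _)
  have h7 : ‖u‖ * (‖x'‖ - δ) ≤ ‖u‖ * ‖u'‖ := mul_le_mul_of_nonneg_left h4 (norm_nonneg _)
  have h8 : (‖x‖ - δ) * ‖x'‖ ≤ ‖u‖ * ‖x'‖ := mul_le_mul_of_nonneg_right h2 (norm_nonneg _)
  have h9 : ‖u‖ * δ ≤ (‖x‖ + δ) * δ := mul_le_mul_of_nonneg_right h3 hδ
  nlinarith

end Near

variable {E : Type*} [NormedAddCommGroup E] [InnerProductSpace ℝ E] [FiniteDimensional ℝ E]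
    {P : Submodule ℝ (E →L[ℝ] E)} (hP : IsCartan P) (hrk : Rk1 P)

theorem sub_top_eq (S : E →L[ℝ] E) (x : E) : x - top S x = mid S x + bot S x := by
  calc x - top S x = (top S x + mid S x + bot S x) - top S x := by rw [decomp S x]
    _ = mid S x + bot S x := by abel

include hrk in
/-- the vectors `top S x` are parallel -/
theorem top_parallel {S : E →L[ℝ] E} (hS : S ∈ P) (x y : E) :
    ‖top S x‖ * ‖top S y‖ ≤ |inner ℝ (top S x) (top S y)| := by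
  by_cases h0 : S = 0
  · rw [h0, top_zero]
    simp
  · have hn : 0 < ‖S‖⁻¹ := inv_pos.2 (norm_pos_iff.2 h0)
    have h1 : ‖‖S‖⁻¹ • S‖ = 1 := by
      rw [norm_smul, norm_inv, norm_norm, inv_mul_cancel₀ (norm_ne_zero_iff.2 h0)]
    obtain ⟨ν, hν, hx⟩ := hrk _ (P.smul_mem ‖S‖⁻¹ hS) h1
    rw [top_smul hn] at hx
    rw [hx x, hx y, norm_smul, norm_smul, inner_smul_left, inner_smul_right,
      real_inner_self_eq_norm_sq, hν, Real.norm_eq_abs, Real.norm_eq_abs, conj_trivial, abs_mul,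
      abs_mul, one_pow, abs_one]
    exact le_of_eq (by ring)

include hrk in
theorem bot_parallel {S : E →L[ℝ] E} (hS : S ∈ P) (x y : E) :
    ‖bot S x‖ * ‖bot S y‖ ≤ |inner ℝ (bot S x) (bot S y)| := by
  have h := top_parallel hrk (P.neg_mem hS) x y
  rwa [top_neg] at h

include hP in
theorem norm_ex_neg_sq {S : E →L[ℝ] E} (hS : S ∈ P) (x : E) : ‖ex (-S) x‖ ^ 2 =
    Real.exp (2 * ‖S‖) * ‖bot S x‖ ^ 2 + ‖mid S x‖ ^ 2 +
      Real.exp (-(2 * ‖S‖)) * ‖top S x‖ ^ 2 := by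
  have h := norm_ex_sq hP (P.neg_mem hS) x
  rwa [norm_neg, top_neg, mid_neg, bot_neg] at h

include hP hrk in
/-- two vectors contracted by the same operators are parallel -/
theorem contracted_unique {ν ν' : E}
    (h : ∀ δ > 0, ∃ S ∈ P, ‖ex (-S) ν‖ ≤ δ ∧ ‖ex (-S) ν'‖ ≤ δ) :
    |inner ℝ ν ν'| = ‖ν‖ * ‖ν'‖ := by
  refine le_antisymm (abs_real_inner_le_norm ν ν') ?_
  -- the key estimate
  have key : ∀ δ > 0, ‖ν‖ * ‖ν'‖ - 2 * (2 * δ) * ‖ν'‖ - 2 * (2 * δ) * (‖ν‖ + 2 * δ) ≤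
      |inner ℝ ν ν'| := by
    intro δ hδ
    obtain ⟨S, hS, h1, h2⟩ := h δ hδ
    have hsub : ∀ x : E, ‖ex (-S) x‖ ≤ δ → ‖x - top S x‖ ≤ 2 * δ := by
      intro x hx
      have e1 := norm_ex_neg_sq hP hS x
      have e2 : (1 : ℝ) ≤ Real.exp (2 * ‖S‖) := Real.one_le_exp (by positivity)
      have e3 : 0 ≤ Real.exp (-(2 * ‖S‖)) * ‖top S x‖ ^ 2 := by positivity
      have e4 : ‖ex (-S) x‖ ^ 2 ≤ δ ^ 2 := pow_le_pow_left₀ (norm_nonneg _) hx 2
      have e5 : ‖bot S x‖ ^ 2 ≤ Real.exp (2 * ‖S‖) * ‖bot S x‖ ^ 2 :=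
        le_mul_of_one_le_left (sq_nonneg _) e2
      have e6 : ‖bot S x‖ ≤ δ := by
        refine le_of_sq_le_sq ?_ hδ.le
        nlinarith [sq_nonneg ‖mid S x‖]
      have e7 : ‖mid S x‖ ≤ δ := by
        refine le_of_sq_le_sq ?_ hδ.le
        nlinarith [sq_nonneg ‖bot S x‖]
      have e8 : x - top S x = mid S x + bot S x := sub_top_eq S x
      rw [e8]
      exact (norm_add_le _ _).trans (by linarith)
    exact near_parallel (hsub ν h1) (hsub ν' h2) (top_parallel hrk hS ν ν')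
  refine le_of_forall_pos_le_add fun ε hε => ?_
  obtain ⟨δ, hδ, hδ1, hδ2⟩ : ∃ δ > 0, δ ≤ 1 ∧ δ * (4 * ‖ν'‖ + 4 * (‖ν‖ + 2)) ≤ ε := by
    refine ⟨min 1 (ε / (4 * ‖ν'‖ + 4 * (‖ν‖ + 2))), by positivity, min_le_left _ _, ?_⟩
    have hpos : 0 < 4 * ‖ν'‖ + 4 * (‖ν‖ + 2) := by positivity
    calc _ ≤ ε / (4 * ‖ν'‖ + 4 * (‖ν‖ + 2)) * (4 * ‖ν'‖ + 4 * (‖ν‖ + 2)) :=
          mul_le_mul_of_nonneg_right (min_le_right _ _) hpos.le
      _ = ε := div_mul_cancel₀ _ hpos.ne'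
  have h1 := key δ hδ
  nlinarith [norm_nonneg ν, norm_nonneg ν']

include hP in
/-- the components of a fixed vector when `bot` is small -/
theorem mid_small {S : E →L[ℝ] E} (hS : S ∈ P) (h0 : S ≠ 0) {ν : E} (h1 : ‖ν‖ = 1)
    (hfix : ∃ z ∈ P, ‖z‖ = 1 ∧ z ν = ν) {ε : ℝ} (hε : 0 ≤ ε) (hb : ‖bot S ν‖ ≤ ε) :
    ‖mid S ν‖ ^ 2 ≤ 2 * ε := by
  obtain ⟨z, hz, hz1, hzν⟩ := hfix
  have hn : 0 < ‖S‖⁻¹ := inv_pos.2 (norm_pos_iff.2 h0)
  have h2 : ‖‖S‖⁻¹ • S‖ = 1 := by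
    rw [norm_smul, norm_inv, norm_norm, inv_mul_cancel₀ (norm_ne_zero_iff.2 h0)]
  have h3 := mid_sq_le hP hz hz1 (P.smul_mem ‖S‖⁻¹ hS) h2 hzν
  rw [top_smul hn, mid_smul hn, bot_smul hn] at h3
  have h4 : ‖top S ν‖ ≤ 1 := h1 ▸ norm_top_le hP hS ν
  have h5 : ‖top S ν‖ ^ 2 ≤ 1 := by
    have := pow_le_pow_left₀ (norm_nonneg _) h4 2
    rwa [one_pow] at this
  have h6 : ‖bot S ν‖ ^ 2 ≤ ε ^ 2 := pow_le_pow_left₀ (norm_nonneg _) hb 2
  have h7 : (‖mid S ν‖ ^ 2) ^ 2 ≤ (2 * ε) ^ 2 := by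
    have h8 : ‖top S ν‖ ^ 2 * ‖bot S ν‖ ^ 2 ≤ 1 * ε ^ 2 :=
      mul_le_mul h5 h6 (sq_nonneg _) zero_le_one
    nlinarith
  exact le_of_sq_le_sq h7 (by positivity)

include hP hrk in
/-- among three vectors as in `mid_small` whose Gram matrix is preserved up to scale by `ex (-S)`,
`‖S‖ → ∞`, two are parallel -/
theorem three_dirs {ν : Fin 3 → E} (h1 : ∀ i, ‖ν i‖ = 1)
    (hfix : ∀ i, ∃ z ∈ P, ‖z‖ = 1 ∧ z (ν i) = ν i)
    (h : ∀ R : ℝ, ∃ S ∈ P, R ≤ ‖S‖ ∧ ∀ i j, |inner ℝ (ex (-S) (ν i)) (ex (-S) (ν j))| =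
      ‖ex (-S) (ν i)‖ * ‖ex (-S) (ν j)‖ * |inner ℝ (ν i) (ν j)|) :
    ∃ i j, i ≠ j ∧ |inner ℝ (ν i) (ν j)| = 1 := by
  by_contra hcon
  push Not at hcon
  have hle : ∀ i j, |inner ℝ (ν i) (ν j)| ≤ 1 := by
    intro i j
    have := abs_real_inner_le_norm (ν i) (ν j)
    rwa [h1, h1, one_mul] at this
  -- a uniform gap
  obtain ⟨κ, hκ, hκ1, hgap⟩ : ∃ κ : ℝ, 0 < κ ∧ κ ≤ 1 ∧ ∀ i j, i ≠ j →
      |inner ℝ (ν i) (ν j)| ≤ 1 - κ := by
    have h2 : ∀ i j, ∃ κ : ℝ, 0 < κ ∧ (i ≠ j → |inner ℝ (ν i) (ν j)| ≤ 1 - κ) := by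
      intro i j
      by_cases hij : i = j
      · exact ⟨1, one_pos, fun h => absurd hij h⟩
      · refine ⟨1 - |inner ℝ (ν i) (ν j)|, ?_, fun _ => by linarith⟩
        exact sub_pos.2 (lt_of_le_of_ne (hle i j) (hcon i j hij))
    choose κ hκ hκ' using h2
    have hne : (Finset.univ : Finset (Fin 3 × Fin 3)).Nonempty := ⟨(0, 0), Finset.mem_univ _⟩
    refine ⟨min 1 (Finset.univ.inf' hne fun p => κ p.1 p.2), lt_min one_pos ?_, min_le_left _ _,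
      fun i j hij => ?_⟩
    · rw [Finset.lt_inf'_iff]
      exact fun p _ => hκ p.1 p.2
    · have h3 : min 1 (Finset.univ.inf' hne fun p => κ p.1 p.2) ≤ κ i j :=
        (min_le_right _ _).trans (Finset.inf'_le (fun p => κ p.1 p.2) (Finset.mem_univ (i, j)))
      linarith [hκ' i j hij]
  -- the constants
  set ε : ℝ := (κ / 16) ^ 2 / 4 with hε
  have hεpos : 0 < ε := by positivity
  have hε1 : ε ≤ κ / 64 := by
    rw [hε]
    nlinarith
  obtain ⟨R, hR⟩ : ∃ R : ℝ, 32 / (κ * ε) ≤ Real.exp R := ⟨Real.log (32 / (κ * ε)), by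
    rw [Real.exp_log (by positivity)]⟩
  obtain ⟨S, hS, hSR, hG⟩ := h (max R 1)
  have hS0 : S ≠ 0 := by
    rintro rfl
    rw [norm_zero] at hSR
    linarith [le_max_right R 1]
  have hexp : 32 / (κ * ε) ≤ Real.exp ‖S‖ :=
    hR.trans (Real.exp_le_exp.2 ((le_max_left _ _).trans hSR))
  -- two large components
  have hlarge : ∀ i j, i ≠ j → ε ≤ ‖bot S (ν i)‖ → ε ≤ ‖bot S (ν j)‖ → False := by
    intro i j hij hi hj
    have hclose : ∀ i, ‖ex (-S) (ν i) - Real.exp ‖S‖ • bot S (ν i)‖ ≤ 2 := by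
      intro i
      have e1 := ex_apply hP (P.neg_mem hS) (ν i)
      rw [norm_neg, top_neg, mid_neg, bot_neg] at e1
      have e2 : ex (-S) (ν i) - Real.exp ‖S‖ • bot S (ν i) =
          mid S (ν i) + Real.exp (-‖S‖) • top S (ν i) := by
        rw [e1]
        abel
      rw [e2]
      have e3 := norm_sq_decomp hP hS (ν i)
      rw [h1 i, one_pow] at e3
      have e4 : ‖mid S (ν i)‖ ≤ 1 := by
        refine le_of_sq_le_sq ?_ zero_le_one
        nlinarith [sq_nonneg ‖top S (ν i)‖, sq_nonneg ‖bot S (ν i)‖]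
      have e5 : ‖top S (ν i)‖ ≤ 1 := h1 i ▸ norm_top_le hP hS (ν i)
      have e6 : Real.exp (-‖S‖) ≤ 1 := Real.exp_le_one_iff.2 (neg_nonpos.2 (norm_nonneg _))
      refine (norm_add_le _ _).trans ?_
      rw [norm_smul, Real.norm_eq_abs, Real.abs_exp]
      have e7 : Real.exp (-‖S‖) * ‖top S (ν i)‖ ≤ 1 * 1 :=
        mul_le_mul e6 e5 (norm_nonneg _) zero_le_one
      linarith
    have hpar : ‖Real.exp ‖S‖ • bot S (ν i)‖ * ‖Real.exp ‖S‖ • bot S (ν j)‖ ≤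
        |inner ℝ (Real.exp ‖S‖ • bot S (ν i)) (Real.exp ‖S‖ • bot S (ν j))| := by
      rw [norm_smul, norm_smul, inner_smul_left, inner_smul_right, conj_trivial, abs_mul, abs_mul,
        Real.norm_eq_abs]
      have h2 := bot_parallel hrk hS (ν i) (ν j)
      have h3 : 0 ≤ |Real.exp ‖S‖| * |Real.exp ‖S‖| := by positivity
      calc _ = |Real.exp ‖S‖| * |Real.exp ‖S‖| * (‖bot S (ν i)‖ * ‖bot S (ν j)‖) := by ring
        _ ≤ |Real.exp ‖S‖| * |Real.exp ‖S‖| * |inner ℝ (bot S (ν i)) (bot S (ν j))| :=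
          mul_le_mul_of_nonneg_left h2 h3
        _ = _ := by ring
    have h2 := near_parallel (hclose i) (hclose j) hpar
    rw [hG i j] at h2
    -- lower bounds for the norms
    have hlow : ∀ i, ε ≤ ‖bot S (ν i)‖ → 32 / κ ≤ ‖ex (-S) (ν i)‖ := by
      intro i hi
      have e1 := norm_top_le_ex hP (P.neg_mem hS) (ν i)
      rw [norm_neg, top_neg] at e1
      have e2 : 32 / (κ * ε) * ε ≤ Real.exp ‖S‖ * ‖bot S (ν i)‖ :=
        mul_le_mul hexp hi hεpos.le (Real.exp_pos _).le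
      have e3 : 32 / (κ * ε) * ε = 32 / κ := by field_simp
      linarith
    have l1 := hlow i hi
    have l2 := hlow j hj
    set a := ‖ex (-S) (ν i)‖
    set b := ‖ex (-S) (ν j)‖
    have h32 : 32 ≤ 32 / κ := by
      rw [le_div_iff₀ hκ]
      nlinarith
    have a1 : 32 ≤ a := h32.trans l1
    have b1 : 32 ≤ b := h32.trans l2
    have a2 : 32 ≤ κ * a := by
      rw [div_le_iff₀ hκ] at l1
      linarith
    have b2 : 32 ≤ κ * b := by
      rw [div_le_iff₀ hκ] at l2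
      linarith
    have h3 := hgap i j hij
    have h4 : a * b * |inner ℝ (ν i) (ν j)| ≤ a * b * (1 - κ) :=
      mul_le_mul_of_nonneg_left h3 (by positivity)
    nlinarith
  have hsmall : ∀ i j, i ≠ j → ‖bot S (ν i)‖ ≤ ε → ‖bot S (ν j)‖ ≤ ε → False := by
    intro i j hij hi hj
    have hclose : ∀ i, ‖bot S (ν i)‖ ≤ ε → ‖ν i - top S (ν i)‖ ≤ κ / 16 := by
      intro i hi
      rw [sub_top_eq]
      have e1 := mid_small hP hS hS0 (h1 i) (hfix i) hεpos.le hi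
      have e2 : ‖mid S (ν i)‖ ≤ 3 * κ / 64 := by
        refine le_of_sq_le_sq ?_ (by positivity)
        have : 2 * ε = κ ^ 2 / 512 := by
          rw [hε]
          ring
        nlinarith [sq_nonneg κ]
      refine (norm_add_le _ _).trans ?_
      linarith
    have h2 := near_parallel (hclose i hi) (hclose j hj) (top_parallel hrk hS (ν i) (ν j))
    rw [h1, h1] at h2
    have h3 := hgap i j hij
    nlinarith
  -- pigeonhole
  rcases le_total (‖bot S (ν 0)‖) ε with p0 | p0 <;> rcases le_total (‖bot S (ν 1)‖) ε with p1 | p1 <;>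
    rcases le_total (‖bot S (ν 2)‖) ε with p2 | p2
  · exact hsmall 0 1 (by decide) p0 p1
  · exact hsmall 0 1 (by decide) p0 p1
  · exact hsmall 0 2 (by decide) p0 p2
  · exact hlarge 1 2 (by decide) p1 p2
  · exact hsmall 1 2 (by decide) p1 p2
  · exact hlarge 0 2 (by decide) p0 p2
  · exact hlarge 0 1 (by decide) p0 p1
  · exact hlarge 0 1 (by decide) p0 p1

end Pool.Agent.FOL
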