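import Pool.Agent.Helper2.RO.Aff
import Pool.Agent.Helper2.MK.Star

/-!
# Step 4: the quotient by an invariant subspace of codimension `1` in the fibres

`p ∘ dev` is onto, the linear holonomy acts trivially on the target of `p`, and `ψ` is a functional
which the linear holonomy changes by a factor and a functional of `p`.  Then `ψ ∘ dev` is
unbounded below on every fibre of `p ∘ dev`.
-/

set_option autoImplicit false
set_option linter.unusedSectionVars false

open Set Filter Topology

namespace Pool.Agent.FOL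

open Pool.Agent.Helper2.MK Pool.Agent.Helper50.HL Pool.Agent.Helper2.RO

variable {V W G Y : Type*} [NormedAddCommGroup V] [NormedSpace ℝ V] [FiniteDimensional ℝ V]
  [NormedAddCommGroup W] [NormedSpace ℝ W]
  [Group G] [TopologicalSpace Y] [T2Space Y] [Nonempty Y] [MulAction G Y]

/-- an invariant set which is convex and nonempty is everything -/
theorem no_convex (M : AffineDeveloping V G Y) {A : Set V} (hA : ∀ g, ∀ x ∈ A, M.hol g x ∈ A)
    (hne : A.Nonempty) (hconv : Convex ℝ A) : A = univ := by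
  have : ContinuousConstSMul G Y := ⟨M.covering.continuous_smul⟩
  let _ : MeasurableSpace V := borel V
  have : BorelSpace V := ⟨rfl⟩
  obtain ⟨c, hc⟩ := hne
  exact no_invariant_star (h := M.holHom) (fun K hK => M.covering.proper K hK) M.covering.free
    M.dev_local M.dev_smul M.volume_hol M.covering.cocompact hA hc (hconv hc)

/-- the data of step 4 -/
structure Planar (M : AffineDeveloping V G Y) (p : V →L[ℝ] W) (ψ : V →L[ℝ] ℝ) (α : G → ℝ)
    (β : G → W →L[ℝ] ℝ) : Prop where
  hinv : ∀ g x, p ((M.hol g).linear x) = p x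
  honto : ∀ w, ∃ y, p (M.dev y) = w
  hα : ∀ g, 0 < α g
  hψ : ∀ g x, ψ ((M.hol g).linear x) = α g * ψ x + β g (p x)
  hψ0 : ∃ x, p x = 0 ∧ 0 < ψ x

namespace Planar

variable {M : AffineDeveloping V G Y} {p : V →L[ℝ] W} {ψ : V →L[ℝ] ℝ} {α : G → ℝ}
    {β : G → W →L[ℝ] ℝ} (H : Planar M p ψ α β)

/-- the translation part on `W` -/
def cc (M : AffineDeveloping V G Y) (p : V →L[ℝ] W) (g : G) : W := p (M.hol g 0)

/-- the translation part of `ψ` -/
def dd (M : AffineDeveloping V G Y) (ψ : V →L[ℝ] ℝ) (g : G) : ℝ := ψ (M.hol g 0)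

/-- the infimum of `ψ ∘ dev` over a fibre -/
noncomputable def F (M : AffineDeveloping V G Y) (p : V →L[ℝ] W) (ψ : V →L[ℝ] ℝ) (w : W) : ℝ :=
  sInf ((fun y => ψ (M.dev y)) '' {y | p (M.dev y) = w})

include H

theorem p_hol (g : G) (x : V) : p (M.hol g x) = p x + cc M p g := by
  have h := hol_sub M g x 0
  rw [sub_zero] at h
  have h1 : M.hol g x = lin M g x + M.hol g 0 := by rw [← h]; abel
  rw [h1, map_add, lin_def, H.hinv]
  rfl

theorem ψ_hol (g : G) (x : V) : ψ (M.hol g x) = α g * ψ x + β g (p x) + dd M ψ g := by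
  have h := hol_sub M g x 0
  rw [sub_zero] at h
  have h1 : M.hol g x = lin M g x + M.hol g 0 := by rw [← h]; abel
  rw [h1, map_add, lin_def, H.hψ]
  rfl

theorem cc_mul (g h : G) : cc M p (g * h) = cc M p g + cc M p h := by
  show p (M.hol (g * h) 0) = _
  rw [M.hol_mul, H.p_hol, add_comm]
  rfl

theorem cc_one : cc M p (1 : G) = 0 := by
  have h := H.cc_mul 1 1
  rw [mul_one] at h
  simpa using h

theorem cc_inv (g : G) : cc M p g⁻¹ = -cc M p g := by
  have h := H.cc_mul g⁻¹ g
  rw [inv_mul_cancel, H.cc_one] at h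
  exact eq_neg_of_add_eq_zero_left h.symm

/-- the fibres are permuted -/
theorem fibre_image (g : G) (w : W) :
    (fun y => ψ (M.dev y)) '' {y | p (M.dev y) = w + cc M p g} =
      (fun u => α g * u + (β g w + dd M ψ g)) '' ((fun y => ψ (M.dev y)) '' {y | p (M.dev y) = w}) := by
  ext u
  constructor
  · rintro ⟨y, hy, rfl⟩
    have h1 : M.dev y = M.hol g (M.dev (g⁻¹ • y)) := by rw [← M.dev_smul, smul_inv_smul]
    have h2 : p (M.dev (g⁻¹ • y)) = w := by
      have h3 : p (M.dev y) = w + cc M p g := hy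
      rw [h1, H.p_hol] at h3
      exact add_right_cancel h3
    refine ⟨_, ⟨g⁻¹ • y, h2, rfl⟩, ?_⟩
    simp only
    rw [h1, H.ψ_hol, h2]
    ring
  · rintro ⟨_, ⟨y, hy, rfl⟩, rfl⟩
    have hy' : p (M.dev y) = w := hy
    refine ⟨g • y, ?_, ?_⟩
    · show p (M.dev (g • y)) = _
      rw [M.dev_smul, H.p_hol, hy']
    · simp only
      rw [M.dev_smul, H.ψ_hol, hy']
      ring

theorem bdd_smul (g : G) {w : W}
    (hw : BddBelow ((fun y => ψ (M.dev y)) '' {y | p (M.dev y) = w})) :
    BddBelow ((fun y => ψ (M.dev y)) '' {y | p (M.dev y) = w + cc M p g}) := by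
  rw [H.fibre_image]
  obtain ⟨b, hb⟩ := hw
  refine ⟨α g * b + (β g w + dd M ψ g), ?_⟩
  rintro _ ⟨u, hu, rfl⟩
  simp only
  have := mul_le_mul_of_nonneg_left (hb hu) (H.hα g).le
  linarith

theorem fibre_nonempty (w : W) : ((fun y => ψ (M.dev y)) '' {y | p (M.dev y) = w}).Nonempty := by
  obtain ⟨y, hy⟩ := H.honto w
  exact ⟨_, y, hy, rfl⟩

theorem F_smul (g : G) {w : W}
    (hw : BddBelow ((fun y => ψ (M.dev y)) '' {y | p (M.dev y) = w})) :
    F M p ψ (w + cc M p g) = α g * F M p ψ w + β g w + dd M ψ g := by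
  have hα := H.hα g
  have hb' := H.bdd_smul g hw
  have hne := H.fibre_nonempty w
  apply le_antisymm
  · -- `F (w + c) ≤ α F w + …`
    have h1 : ∀ u ∈ (fun y => ψ (M.dev y)) '' {y | p (M.dev y) = w},
        (α g)⁻¹ * (F M p ψ (w + cc M p g) - β g w - dd M ψ g) ≤ u := by
      intro u hu
      have h2 : α g * u + (β g w + dd M ψ g) ∈
          (fun y => ψ (M.dev y)) '' {y | p (M.dev y) = w + cc M p g} := by
        rw [H.fibre_image]
        exact ⟨u, hu, rfl⟩
      have h3 : F M p ψ (w + cc M p g) ≤ α g * u + (β g w + dd M ψ g) := csInf_le hb' h2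
      rw [inv_mul_le_iff₀ hα]
      linarith
    have h4 := le_csInf hne h1
    rw [inv_mul_le_iff₀ hα] at h4
    have h5 : F M p ψ w = sInf ((fun y => ψ (M.dev y)) '' {y | p (M.dev y) = w}) := rfl
    rw [← h5] at h4
    linarith
  · refine le_csInf (H.fibre_nonempty _) ?_
    rw [H.fibre_image]
    rintro _ ⟨u, hu, rfl⟩
    have h1 : F M p ψ w ≤ u := csInf_le hw hu
    have := mul_le_mul_of_nonneg_left h1 hα.le
    simp only
    linarith

/-- the orbit `w0 + c(G)` spans `W` affinely -/
theorem span {w0 : W} {l : W →L[ℝ] ℝ} {m : ℝ} (h : ∀ g, l (w0 + cc M p g) + m = 0) :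
    l = 0 ∧ m = 0 := by
  have h0 := h 1
  rw [H.cc_one, add_zero] at h0
  have hc : ∀ g, l (cc M p g) = 0 := by
    intro g
    have := h g
    rw [map_add] at this
    linarith
  obtain ⟨Fr⟩ := exists_frame M
  have hcont : Continuous fun y => l (p (M.dev y)) :=
    l.continuous.comp (p.continuous.comp M.dev_local.continuous)
  obtain ⟨B, hB⟩ := (Fr.hK.image hcont).bddAbove
  have hbound : ∀ w, l w ≤ B := by
    intro w
    obtain ⟨y, hy⟩ := H.honto w
    obtain ⟨g, z, hz, rfl⟩ := Fr.cover y
    have h1 : l w = l (p (M.dev z)) := by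
      rw [← hy, M.dev_smul, H.p_hol, map_add, hc, add_zero]
    rw [h1]
    exact hB ⟨z, hz, rfl⟩
  have hl : l = 0 := by
    ext w
    by_contra hne
    have hne' : l w ≠ 0 := hne
    have h2 := hbound (((B + 1) / l w) • w)
    rw [map_smul, smul_eq_mul, div_mul_cancel₀ _ hne'] at h2
    linarith
  refine ⟨hl, ?_⟩
  rw [hl] at h0
  simpa using h0

/-- no invariant graph -/
theorem no_graph {l : W →L[ℝ] ℝ} {m : ℝ} (h1 : ∀ g w, l w = α g * l w + β g w)
    (h2 : ∀ g, l (cc M p g) + m = α g * m + dd M ψ g) : False := by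
  obtain ⟨x0, hx0, hψ0⟩ := H.hψ0
  have key := no_convex M (A := {x | ψ x = l (p x) + m}) ?_ ?_ ?_
  · have h3 : ((m + 1) / ψ x0) • x0 ∈ {x | ψ x = l (p x) + m} := by rw [key]; trivial
    have h4 : ψ (((m + 1) / ψ x0) • x0) = l (p (((m + 1) / ψ x0) • x0)) + m := h3
    rw [map_smul, map_smul, hx0, smul_zero, map_zero, smul_eq_mul,
      div_mul_cancel₀ _ hψ0.ne'] at h4
    linarith
  · intro g x hx
    have hx' : ψ x = l (p x) + m := hx
    show ψ (M.hol g x) = l (p (M.hol g x)) + m
    rw [H.ψ_hol, H.p_hol, map_add, hx']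
    have h3 := h1 g (p x)
    linear_combination -h3 - h2 g
  · refine ⟨(m / ψ x0) • x0, ?_⟩
    show ψ ((m / ψ x0) • x0) = l (p ((m / ψ x0) • x0)) + m
    rw [map_smul, map_smul, hx0, smul_zero, map_zero, smul_eq_mul, div_mul_cancel₀ _ hψ0.ne',
      zero_add]
  · intro x hx y hy a b ha hb hab
    have hx' : ψ x = l (p x) + m := hx
    have hy' : ψ y = l (p y) + m := hy
    show ψ (a • x + b • y) = l (p (a • x + b • y)) + m
    simp only [map_add, map_smul, smul_eq_mul, hx', hy']
    have : b = 1 - a := by linarith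
    subst this
    ring

/-- **Step 4.** `ψ ∘ dev` is unbounded below on every fibre of `p ∘ dev`. -/
theorem unbounded (w0 : W) :
    ¬ BddBelow ((fun y => ψ (M.dev y)) '' {y | p (M.dev y) = w0}) := by
  intro hw0
  have hp : Function.Surjective p := fun w => by
    obtain ⟨y, hy⟩ := H.honto w
    exact ⟨_, hy⟩
  have hbdd : ∀ g, BddBelow ((fun y => ψ (M.dev y)) '' {y | p (M.dev y) = w0 + cc M p g}) :=
    fun g => H.bdd_smul g hw0
  by_cases hN : ∃ n, cc M p n = 0 ∧ α n ≠ 1
  · -- case (i)
    obtain ⟨n, hn, hαn⟩ := hN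
    have hαn' : 1 - α n ≠ 0 := sub_ne_zero.mpr (Ne.symm hαn)
    set l : W →L[ℝ] ℝ := (1 - α n)⁻¹ • β n with hl
    set m : ℝ := (1 - α n)⁻¹ * dd M ψ n with hm
    have hFJ : ∀ g, F M p ψ (w0 + cc M p g) = l (w0 + cc M p g) + m := by
      intro g
      have h1 := H.F_smul n (hbdd g)
      rw [hn, add_zero] at h1
      have h2 : l (w0 + cc M p g) = (1 - α n)⁻¹ * β n (w0 + cc M p g) := rfl
      rw [h2, hm, ← mul_add, eq_inv_mul_iff_mul_eq₀ hαn']
      linarith
    have hall : ∀ g, (l - α g • l - β g = 0) ∧ l (cc M p g) + m - α g * m - dd M ψ g = 0 := by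
      intro g
      apply H.span (w0 := w0)
      intro h
      have h1 := H.F_smul g (hbdd h)
      have h2 := hFJ (h * g)
      rw [H.cc_mul, ← add_assoc, h1, hFJ h, map_add _ _ (cc M p g)] at h2
      simp only [sub_apply, smul_apply, smul_eq_mul]
      linarith
    refine H.no_graph (l := l) (m := m) (fun g w => ?_) (fun g => ?_)
    · have h1 := congrArg (fun T : W →L[ℝ] ℝ => T w) (hall g).1
      simp only [sub_apply, smul_apply, smul_eq_mul,
        zero_apply] at h1
      linarith
    · have := (hall g).2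
      linarith
  · push Not at hN
    have hNtriv : ∀ n, cc M p n = 0 → ∀ x, ψ (M.hol n x) = ψ x := by
      intro n hn x
      have h1 : β n = 0 ∧ dd M ψ n = 0 := by
        apply H.span (w0 := w0)
        intro g
        have h1 := H.F_smul n (hbdd g)
        rw [hn, add_zero, hN n hn] at h1
        linarith
      rw [H.ψ_hol, hN n hn, h1.1, h1.2]
      simp
    by_cases hA : ∃ h, α h ≠ 1
    · -- case (ii)
      obtain ⟨h, hαh⟩ := hA
      have hαh' : 1 - α h ≠ 0 := sub_ne_zero.mpr (Ne.symm hαh)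
      have hcomm : ∀ g x, ψ (M.hol (g * h) x) = ψ (M.hol (h * g) x) := by
        intro g x
        have h1 : g * h = (g * h * (h * g)⁻¹) * (h * g) := by group
        rw [h1, M.hol_mul, hNtriv]
        rw [H.cc_mul, H.cc_inv, H.cc_mul, H.cc_mul]
        abel
      have hexp : ∀ g x, α g * (α h * ψ x + β h (p x) + dd M ψ h) + β g (p x + cc M p h) + dd M ψ g =
          α h * (α g * ψ x + β g (p x) + dd M ψ g) + β h (p x + cc M p g) + dd M ψ h := by
        intro g x
        have h1 := hcomm g x
        rwa [M.hol_mul, M.hol_mul, H.ψ_hol g, H.ψ_hol h (M.hol g x), H.ψ_hol h x, H.ψ_hol g x,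
          H.p_hol, H.p_hol] at h1
      have h0 : ∀ g, α g * dd M ψ h + β g (cc M p h) + dd M ψ g =
          α h * dd M ψ g + β h (cc M p g) + dd M ψ h := by
        intro g
        have h1 := hexp g 0
        simpa using h1
      have hβ : ∀ g w, α g * β h w + β g w = α h * β g w + β h w := by
        intro g w
        obtain ⟨x, rfl⟩ := hp w
        have h1 := hexp g x
        have h2 := h0 g
        rw [map_add, map_add] at h1
        linarith
      set l : W →L[ℝ] ℝ := (1 - α h)⁻¹ • β h with hl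
      set m : ℝ := (1 - α h)⁻¹ * (dd M ψ h - l (cc M p h)) with hm
      have hlw : ∀ w, (1 - α h) * l w = β h w := by
        intro w
        have h2 : l w = (1 - α h)⁻¹ * β h w := rfl
        rw [h2, mul_inv_cancel_left₀ hαh']
      have hmw : (1 - α h) * m = dd M ψ h - l (cc M p h) := by
        rw [hm, mul_inv_cancel_left₀ hαh']
      refine H.no_graph (l := l) (m := m) (fun g w => ?_) (fun g => ?_)
      · apply mul_left_cancel₀ hαh'
        have h1 := hβ g w
        have h2 := hlw w
        linear_combination (1 - α g) * h2 - h1 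
      · apply mul_left_cancel₀ hαh'
        have h1 := h0 g
        have h2 := hlw (cc M p g)
        have h3 := hlw (cc M p h)
        have h4 := hβ g (cc M p h)
        have h5 : (1 - α g) * l (cc M p h) = β g (cc M p h) := by
          apply mul_left_cancel₀ hαh'
          linear_combination (1 - α g) * h3 - h4
        linear_combination h2 + (1 - α g) * hmw - h1 - h5
    · -- case (iii)
      push Not at hA
      obtain ⟨x0, hx0, hψ0⟩ := H.hψ0
      obtain ⟨Fr⟩ := exists_frame M
      have hx0n : 0 < ‖x0‖ := by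
        rw [norm_pos_iff]
        rintro rfl
        simp at hψ0
      have hr0 := Fr.hr0
      set s : ℝ := Fr.r0 / (2 * ‖x0‖) with hs
      have hs0 : 0 < s := by positivity
      -- lower bound over `K`
      have hlow : ∀ z ∈ Fr.K, ∀ g, p (M.dev z) = w0 + cc M p g →
          F M p ψ (w0 + cc M p g) + s * ψ x0 ≤ ψ (M.dev z) := by
        intro z hz g hzg
        have h1 : M.dev z - s • x0 ∈ dom M.dev z := by
          apply Fr.ball z hz
          rw [mem_ball_iff_norm, sub_sub_cancel_left, norm_neg, norm_smul,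
            Real.norm_of_nonneg hs0.le, hs]
          have : Fr.r0 / (2 * ‖x0‖) * ‖x0‖ = Fr.r0 / 2 := by field_simp
          rw [this]
          linarith
        have h2 : M.dev (sec M.dev z (M.dev z - s • x0)) = M.dev z - s • x0 :=
          dev_sec M.dev_local h1
        have h3 : F M p ψ (w0 + cc M p g) ≤ ψ (M.dev z - s • x0) := by
          refine csInf_le (hbdd g) ⟨sec M.dev z (M.dev z - s • x0), ?_, ?_⟩
          · show p (M.dev _) = _
            rw [h2, map_sub, map_smul, hx0, smul_zero, sub_zero, hzg]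
          · simp only
            rw [h2]
        rw [map_sub, map_smul, smul_eq_mul] at h3
        linarith
      have hlow2 : ∀ y, p (M.dev y) = w0 → F M p ψ w0 + s * ψ x0 ≤ ψ (M.dev y) := by
        intro y hy
        obtain ⟨g, z, hz, rfl⟩ := Fr.cover y
        have h1 : p (M.dev z) = w0 + cc M p g⁻¹ := by
          rw [M.dev_smul, H.p_hol] at hy
          rw [H.cc_inv, ← hy]
          abel
        have h2 := hlow z hz g⁻¹ h1
        have h3 := H.F_smul g (hbdd g⁻¹)
        rw [H.cc_inv, neg_add_cancel_right, hA g] at h3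
        rw [H.cc_inv] at h2
        rw [M.dev_smul, H.ψ_hol, hA g, h1, H.cc_inv]
        linarith
      have hpos : 0 < s * ψ x0 := by positivity
      obtain ⟨_, ⟨y, hy, rfl⟩, hlt⟩ := exists_lt_of_csInf_lt (H.fibre_nonempty w0)
        (show sInf _ < F M p ψ w0 + s * ψ x0 from by
          show F M p ψ w0 < _
          linarith)
      have := hlow2 y hy
      simp only at hlt
      linarith

end Planar

end Pool.Agent.FOL
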