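import Pool.Agent.FOL.Inj
import Pool.Agent.FOL.Planar

/-!
# Steps 3 and 4 assembled: an incomplete leaf is impossible if its direction is preserved
-/

set_option autoImplicit false
set_option linter.unusedSectionVars false

open Set Filter Topology

namespace Pool.Agent.FOL

open Pool.Agent.Helper2.MK Pool.Agent.Helper50.HL Pool.Agent.Helper2.RO

variable {V G Y : Type*} [NormedAddCommGroup V] [InnerProductSpace ℝ V] [FiniteDimensional ℝ V]
    [Group G] [TopologicalSpace Y] [T2Space Y] [MulAction G Y] (D : FData V G Y)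

/-- the factor by which `LE g` scales the functional `ν` is not zero -/
theorem factor_ne {ν : D.E} (hν : ‖ν‖ = 1) {g : G} {c : ℝ}
    (h : ∀ x, inner ℝ ν (LE D g x) = c * inner ℝ ν x) : c ≠ 0 := by
  rintro rfl
  have h1 := h (LE D g⁻¹ ν)
  rw [LE_inv', zero_mul, real_inner_self_eq_norm_sq, hν] at h1
  norm_num at h1

/-- the elements which scale the functional `ν` by a positive factor -/
def posStab (ν : D.E) : Subgroup G where
  carrier := {g | ∃ c : ℝ, 0 < c ∧ ∀ x, inner ℝ ν (LE D g x) = c * inner ℝ ν x}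
  one_mem' := ⟨1, one_pos, fun x => by rw [LE_one, one_mul]⟩
  mul_mem' := by
    rintro a b ⟨c, hc, h⟩ ⟨c', hc', h'⟩
    refine ⟨c * c', mul_pos hc hc', fun x => ?_⟩
    rw [LE_mul, h, h', mul_assoc]
  inv_mem' := by
    rintro a ⟨c, hc, h⟩
    refine ⟨c⁻¹, inv_pos.mpr hc, fun x => ?_⟩
    have h1 := h (LE D a⁻¹ x)
    rw [LE_inv'] at h1
    rw [h1, inv_mul_cancel_left₀ hc.ne']

/-- if finitely many translates cover the stabiliser of the line, then also its positive part -/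
theorem exists_cover {ν : D.E} (hν : ‖ν‖ = 1) {T : Finset G}
    (hT : ∀ g, ∃ t ∈ T, ∃ c : ℝ, ∀ x, inner ℝ ν (LE D (t * g) x) = c * inner ℝ ν x) :
    ∃ T : Finset G, ∀ g, ∃ t ∈ T, t * g ∈ posStab D ν := by
  classical
  by_cases hneg : ∃ h : G, ∃ c : ℝ, c < 0 ∧ ∀ x, inner ℝ ν (LE D h x) = c * inner ℝ ν x
  · obtain ⟨h, c, hc, hh⟩ := hneg
    refine ⟨T ∪ T.image (fun t => h * t), fun g => ?_⟩
    obtain ⟨t, ht, c', hc'⟩ := hT g
    rcases lt_or_gt_of_ne (factor_ne D hν hc') with h1 | h1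
    · refine ⟨h * t, Finset.mem_union_right _ (Finset.mem_image_of_mem _ ht), c * c',
        mul_pos_of_neg_of_neg hc h1, fun x => ?_⟩
      rw [mul_assoc, LE_mul, hh, hc', mul_assoc]
    · exact ⟨t, Finset.mem_union_left _ ht, c', h1, hc'⟩
  · refine ⟨T, fun g => ?_⟩
    obtain ⟨t, ht, c', hc'⟩ := hT g
    refine ⟨t, ht, c', ?_, hc'⟩
    rcases lt_or_gt_of_ne (factor_ne D hν hc') with h1 | h1
    · exact absurd ⟨_, c', h1, hc'⟩ hneg
    · exact h1

variable {W : Type*} [NormedAddCommGroup W] [NormedSpace ℝ W] {p : V →L[ℝ] W}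

/-- a functional which vanishes on the kernel of `p` factors through `p` -/
theorem exists_factor (hp : Function.Surjective p) {f : V →ₗ[ℝ] ℝ} (h : ∀ x, p x = 0 → f x = 0) :
    ∃ b : W →L[ℝ] ℝ, ∀ x, f x = b (p x) := by
  have hW : FiniteDimensional ℝ W := Module.Finite.of_surjective (p : V →ₗ[ℝ] W) hp
  obtain ⟨σ, hσ⟩ := (p : V →ₗ[ℝ] W).exists_rightInverse_of_surjective
    (LinearMap.range_eq_top.mpr hp)
  have hσ' : ∀ c, p (σ c) = c := fun c => by
    have := congrArg (fun T : W →ₗ[ℝ] W => T c) hσ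
    exact this
  refine ⟨LinearMap.toContinuousLinearMap (f.comp σ), fun x => ?_⟩
  have h1 := h (x - σ (p x)) (by rw [map_sub, hσ', sub_self])
  rw [map_sub, sub_eq_zero] at h1
  exact h1

variable [Nonempty Y]

/-- **Steps 3 and 4.** -/
theorem core {M' : Type*} [Group M'] [MulAction M' Y] (N : AffineDeveloping V M' Y)
    (hdev : N.dev = D.dev)
    (hp : Function.Surjective p) (hker : ∀ x, p x = 0 ↔ x ∈ D.E)
    (hinv : ∀ g x, p ((N.hol g).linear x) = p x) (honto : ∀ w, ∃ y, p (D.dev y) = w)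
    (hrk : Rk1 D.P) (hchain : ∀ y y' : Y, p (D.dev y) = p (D.dev y') → Relation.EqvGen
      (fun a b => ∃ e, p e = 0 ∧ D.dev a + e ∈ dom D.dev a ∧ b = sec D.dev a (D.dev a + e)) y y')
    {y0 : Y} (h0 : LD D y0 ≠ univ) {ν : D.E} (hν : Dir D y0 ν)
    (hstab : ∀ g, ∃ c : ℝ, 0 < c ∧ ∀ x : D.E, inner ℝ (ν : V) ((N.hol g).linear x) =
      c * inner ℝ (ν : V) (x : V)) : False := by
  choose α hα hα' using hstab
  -- the functional
  have hβ : ∀ (s : ℝ) (g : M'), ∃ b : W →L[ℝ] ℝ, ∀ x,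
      s * inner ℝ (ν : V) ((N.hol g).linear x) - α g * (s * inner ℝ (ν : V) x) = b (p x) := by
    intro s g
    obtain ⟨b, hb⟩ := exists_factor (p := p) hp
      (f := s • ((innerₛₗ ℝ (ν : V)).comp ((N.hol g).linear : V →ₗ[ℝ] V)) -
        (α g * s) • innerₛₗ ℝ (ν : V)) (fun x hx => by
      have h1 := hα' g ⟨x, (hker x).1 hx⟩
      have h2 : inner ℝ (ν : V) ((N.hol g).linear x) = α g * inner ℝ (ν : V) x := h1
      show s * inner ℝ (ν : V) ((N.hol g).linear x) - (α g * s) * inner ℝ (ν : V) x = 0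
      rw [h2]; ring)
    refine ⟨b, fun x => ?_⟩
    rw [← hb x]
    show _ = s * inner ℝ (ν : V) ((N.hol g).linear x) - (α g * s) * inner ℝ (ν : V) x
    ring
  have hνE : p (ν : V) = 0 := (hker _).2 ν.2
  have hνn : inner ℝ (ν : V) (ν : V) = (1 : ℝ) := by
    have := hν.norm
    rw [real_inner_self_eq_norm_sq]
    have h2 : ‖(ν : V)‖ = 1 := this
    rw [h2]; norm_num
  have key : ∀ s : ℝ, s ≠ 0 → ¬ BddBelow ((fun y => s * inner ℝ (ν : V) (D.dev y)) ''
      {y | p (D.dev y) = p (D.dev y0)}) := by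
    intro s hs
    choose b hb using hβ s
    have H : Planar N p (s • innerSL ℝ (ν : V)) α b := by
      refine ⟨hinv, by rwa [hdev], hα, fun g x => ?_, ⟨s • (ν : V), ?_, ?_⟩⟩
      · show s * inner ℝ (ν : V) ((N.hol g).linear x) = α g * (s * inner ℝ (ν : V) x) + b g (p x)
        rw [← hb g x]; ring
      · rw [map_smul, hνE, smul_zero]
      · show 0 < s * inner ℝ (ν : V) (s • (ν : V))
        rw [inner_smul_right, hνn, mul_one]
        exact mul_self_pos.mpr hs
    have h1 := H.unbounded (p (D.dev y0))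
    rw [hdev] at h1
    exact h1
  -- the values of the functional on the star domain form an interval
  apply h0
  have hne1 := key 1 one_ne_zero
  have hne2 := key (-1) (by norm_num)
  rw [eq_univ_iff_forall]
  intro e
  have hconv := LD_convex D hrk y0
  have hval : ∀ y, p (D.dev y) = p (D.dev y0) → ∃ e' ∈ LD D y0,
      inner ℝ (ν : V) (D.dev y) = inner ℝ (ν : V) (D.dev y0) + inner ℝ ν e' := by
    intro y hy
    obtain ⟨e', he', h1⟩ := fibre_step D hrk hker hchain hy.symm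
    refine ⟨e', he', ?_⟩
    rw [h1, dev_sec D.dev_local he', inner_add_right]
    rfl
  have hlow : ∃ e1 ∈ LD D y0, inner ℝ ν e1 ≤ (inner ℝ ν e : ℝ) := by
    by_contra hcon
    push Not at hcon
    apply hne1
    refine ⟨inner ℝ (ν : V) (D.dev y0) + inner ℝ ν e, ?_⟩
    rintro _ ⟨y, hy, rfl⟩
    obtain ⟨e', he', h1⟩ := hval y hy
    have h2 := hcon e' he'
    simp only
    rw [h1]
    linarith
  have hupp : ∃ e2 ∈ LD D y0, (inner ℝ ν e : ℝ) ≤ inner ℝ ν e2 := by
    by_contra hcon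
    push Not at hcon
    apply hne2
    refine ⟨-(inner ℝ (ν : V) (D.dev y0) + inner ℝ ν e), ?_⟩
    rintro _ ⟨y, hy, rfl⟩
    obtain ⟨e', he', h1⟩ := hval y hy
    have h2 := hcon e' he'
    simp only
    rw [h1]
    linarith
  obtain ⟨e1, he1, h1⟩ := hlow
  obtain ⟨e2, he2, h2⟩ := hupp
  -- a point of the segment with the right value
  have h3 : ∃ a b : ℝ, 0 ≤ a ∧ 0 ≤ b ∧ a + b = 1 ∧
      a * inner ℝ ν e1 + b * inner ℝ ν e2 = (inner ℝ ν e : ℝ) := by
    rcases eq_or_lt_of_le (h1.trans h2) with h4 | h4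
    · refine ⟨1, 0, zero_le_one, le_rfl, by norm_num, ?_⟩
      rw [one_mul, zero_mul, add_zero]
      linarith
    · have h5 : 0 < (inner ℝ ν e2 : ℝ) - inner ℝ ν e1 := by linarith
      refine ⟨(inner ℝ ν e2 - inner ℝ ν e) / (inner ℝ ν e2 - inner ℝ ν e1),
        (inner ℝ ν e - inner ℝ ν e1) / (inner ℝ ν e2 - inner ℝ ν e1),
        div_nonneg (by linarith) h5.le, div_nonneg (by linarith) h5.le, ?_, ?_⟩
      · rw [← add_div]
        rw [div_eq_one_iff_eq h5.ne']
        ring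
      · field_simp
        ring
  obtain ⟨a, b, ha, hb, hab, h4⟩ := h3
  refine hν.sat _ (hconv he1 he2 ha hb hab) e ?_
  rw [inner_add_right, inner_smul_right, inner_smul_right, h4]

end Pool.Agent.FOL
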