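import Pool.Agent.Helper2.RO.AlgC
import Pool.Agent.Helper2.RO.Rad
import Pool.Agent.Helper2.RO.Aff

/-!
# Compact affine manifolds with an invariant subspace of rank one type: definitions

`M` is a compact affine manifold with parallel volume whose linear holonomy preserves a subspace `E`
of the model space `V` and permutes the norms `x ↦ ‖exp(S) x‖` of `E`, `S ∈ P`.
-/

set_option autoImplicit false
set_option linter.unusedSectionVars false

open Set Filter Topology

namespace Pool.Agent.FOL

open Pool.Agent.Helper2.MK Pool.Agent.Helper50.HL Pool.Agent.Helper2.RO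

/-- A compact affine manifold with parallel volume, a subspace `E` invariant under the linear
holonomy, and a space `P` of symmetric operators of `E` of rank one type such that the linear
holonomy permutes the norms `x ↦ ‖exp(S) x‖` of `E`, `S ∈ P`. -/
structure FData (V G Y : Type*) [NormedAddCommGroup V] [InnerProductSpace ℝ V] [Group G]
    [TopologicalSpace Y] [MulAction G Y] extends AffineDeveloping V G Y where
  /-- the invariant subspace -/
  E : Submodule ℝ V
  hE : ∀ (g : G), ∀ x ∈ E, (hol g).linear x ∈ E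
  /-- the Cartan part -/
  P : Submodule ℝ (E →L[ℝ] E)
  cartan : IsCartan P
  pres : ∀ (g : G), ∀ S ∈ P, ∃ S' ∈ P, ∀ x : E,
    ‖ex S' (⟨(hol g).linear x, hE g x x.2⟩ : E)‖ = ‖ex S x‖

variable {V G Y : Type*} [NormedAddCommGroup V] [InnerProductSpace ℝ V] [Group G]
    [TopologicalSpace Y] [MulAction G Y] (D : FData V G Y)

/-- The linear holonomy restricted to `E`. -/
def LE (g : G) : D.E →ₗ[ℝ] D.E where
  toFun x := ⟨(D.hol g).linear x, D.hE g x x.2⟩
  map_add' x y := by ext; simp
  map_smul' c x := by ext; simp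

/-- The leafwise star domain of `y`, translated to the origin. -/
def LD (y : Y) : Set D.E := {e | D.dev y + (e : V) ∈ dom D.dev y}

theorem LE_coe (g : G) (x : D.E) : ((LE D g x : D.E) : V) = lin D.toAffineDeveloping g x := rfl

theorem mem_LD (y : Y) (e : D.E) : e ∈ LD D y ↔ D.dev y + (e : V) ∈ dom D.dev y := Iff.rfl

theorem LE_mul (g h : G) (x : D.E) : LE D (g * h) x = LE D g (LE D h x) := by
  apply Subtype.ext
  exact lin_mul D.toAffineDeveloping g h x

theorem LE_one (x : D.E) : LE D 1 x = x := by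
  apply Subtype.ext
  exact lin_one D.toAffineDeveloping x

theorem LE_inv (g : G) (x : D.E) : LE D g⁻¹ (LE D g x) = x := by
  rw [← LE_mul, inv_mul_cancel, LE_one]

theorem LE_inv' (g : G) (x : D.E) : LE D g (LE D g⁻¹ x) = x := by
  rw [← LE_mul, mul_inv_cancel, LE_one]

theorem pres' (g : G) {S : D.E →L[ℝ] D.E} (hS : S ∈ D.P) :
    ∃ S' ∈ D.P, ∀ x : D.E, ‖ex S' (LE D g x)‖ = ‖ex S x‖ := D.pres g S hS

/-- the norm of `g` is one of the norms `‖exp(S) x‖` -/
theorem exists_norm (g : G) : ∃ S ∈ D.P, ∀ x : D.E, ‖LE D g⁻¹ x‖ = ‖ex S x‖ := by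
  obtain ⟨S', hS', h⟩ := D.pres g 0 D.P.zero_mem
  refine ⟨S', hS', fun x => ?_⟩
  have h1 := h (LE D g⁻¹ x)
  have h2 : (⟨(D.hol g).linear (LE D g⁻¹ x : D.E), D.hE g _ (LE D g⁻¹ x).2⟩ : D.E) = x :=
    LE_inv' D g x
  rw [h2] at h1
  rw [h1]
  simp [ex]

/-- the leafwise star domain is equivariant -/
theorem LD_smul [FiniteDimensional ℝ V] (g : G) (y : Y) (e : D.E) :
    LE D g e ∈ LD D (g • y) ↔ e ∈ LD D y := by
  rw [mem_LD, mem_LD, ← dom_smul D.toAffineDeveloping g y (D.dev y + (e : V))]
  have h : D.hol g (D.dev y + (e : V)) = D.dev (g • y) + ((LE D g e : D.E) : V) := by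
    have h1 := hol_sub D.toAffineDeveloping g (D.dev y + (e : V)) (D.dev y)
    rw [add_sub_cancel_left] at h1
    rw [LE_coe, ← h1, D.dev_smul]
    abel
  rw [← h]

end Pool.Agent.FOL
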