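import Pool.Agent.FOL.Defs

/-! Restriction of the data to a subgroup covered by finitely many translates. -/

set_option autoImplicit false
set_option linter.unusedSectionVars false

open Set Filter Topology

namespace Pool.Agent.FOL

open Pool.Agent.Helper2.MK Pool.Agent.Helper50.HL Pool.Agent.Helper2.RO

section

variable {V G Y : Type*} [NormedAddCommGroup V] [NormedSpace ℝ V] [Group G]
    [TopologicalSpace Y] [MulAction G Y]

/-- A subgroup `H` such that finitely many translates of `H` cover `G` acts cocompactly. -/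
theorem restrict_covering (hc : IsCocompactCovering G Y) (H : Subgroup G) (T : Finset G)
    (hT : ∀ g, ∃ t ∈ T, t * g ∈ H) : IsCocompactCovering H Y where
  continuous_smul h := hc.continuous_smul (h : G)
  free h y hy := Subtype.ext (hc.free (h : G) y hy)
  proper K hK := by
    have h1 := hc.proper K hK
    refine (h1.preimage (f := fun h : H => (h : G)) Subtype.coe_injective.injOn).subset ?_
    intro h hh
    exact hh
  cocompact := by
    obtain ⟨K, hK, hK'⟩ := hc.cocompact
    refine ⟨⋃ t ∈ T, (fun y => t • y) '' K, T.isCompact_biUnion fun t _ =>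
      hK.image (hc.continuous_smul t), fun y => ?_⟩
    obtain ⟨g, hg⟩ := hK' y
    obtain ⟨t, ht, htg⟩ := hT g
    refine ⟨⟨t * g, htg⟩, mem_iUnion₂.2 ⟨t, ht, g • y, hg, ?_⟩⟩
    show t • g • y = (t * g) • y
    rw [mul_smul]

/-- Restriction of an affine developing pair to such a subgroup. -/
def restrictAD (M : AffineDeveloping V G Y) (H : Subgroup G) (T : Finset G)
    (hT : ∀ g, ∃ t ∈ T, t * g ∈ H) : AffineDeveloping V H Y where
  dev := M.dev
  hol h := M.hol (h : G)
  dev_local := M.dev_local
  hol_mul h h' x := M.hol_mul (h : G) (h' : G) x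
  dev_smul h y := M.dev_smul (h : G) y
  volume_hol h := M.volume_hol (h : G)
  covering := restrict_covering M.covering H T hT

@[simp] theorem restrictAD_dev (M : AffineDeveloping V G Y) (H : Subgroup G) (T : Finset G)
    (hT : ∀ g, ∃ t ∈ T, t * g ∈ H) : (restrictAD M H T hT).dev = M.dev := rfl

@[simp] theorem restrictAD_hol (M : AffineDeveloping V G Y) (H : Subgroup G) (T : Finset G)
    (hT : ∀ g, ∃ t ∈ T, t * g ∈ H) (h : H) : (restrictAD M H T hT).hol h = M.hol (h : G) := rfl

end

section

variable {V G Y : Type*} [NormedAddCommGroup V] [InnerProductSpace ℝ V] [Group G]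
    [TopologicalSpace Y] [MulAction G Y]

/-- Restriction of `FData` to such a subgroup. -/
def restrictFD (D : FData V G Y) (H : Subgroup G) (T : Finset G)
    (hT : ∀ g, ∃ t ∈ T, t * g ∈ H) : FData V H Y where
  toAffineDeveloping := restrictAD D.toAffineDeveloping H T hT
  E := D.E
  hE h := D.hE (h : G)
  P := D.P
  cartan := D.cartan
  pres h := D.pres (h : G)

@[simp] theorem restrictFD_toAD (D : FData V G Y) (H : Subgroup G) (T : Finset G)
    (hT : ∀ g, ∃ t ∈ T, t * g ∈ H) :
    (restrictFD D H T hT).toAffineDeveloping = restrictAD D.toAffineDeveloping H T hT := rfl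

theorem restrictFD_dev (D : FData V G Y) (H : Subgroup G) (T : Finset G)
    (hT : ∀ g, ∃ t ∈ T, t * g ∈ H) : (restrictFD D H T hT).dev = D.dev := rfl

theorem restrictFD_hol (D : FData V G Y) (H : Subgroup G) (T : Finset G)
    (hT : ∀ g, ∃ t ∈ T, t * g ∈ H) (h : H) : (restrictFD D H T hT).hol h = D.hol (h : G) := rfl

@[simp] theorem restrictFD_E (D : FData V G Y) (H : Subgroup G) (T : Finset G)
    (hT : ∀ g, ∃ t ∈ T, t * g ∈ H) : (restrictFD D H T hT).E = D.E := rfl

theorem restrictFD_P (D : FData V G Y) (H : Subgroup G) (T : Finset G)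
    (hT : ∀ g, ∃ t ∈ T, t * g ∈ H) : (restrictFD D H T hT).P = D.P := rfl

end

end Pool.Agent.FOL
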