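import Pool.Agent.FOL.Defs
import Pool.Agent.Helper2.RO.Cartan
import Pool.Agent.Helper2.RO.FormsLog

/-! The traceless symmetric operators of a plane are of rank one type, and every linear map of
determinant `±1` permutes the norms `x ↦ ‖exp(S) x‖`. -/

set_option autoImplicit false
set_option linter.unusedSectionVars false

open Set Filter Topology

namespace Pool.Agent.FOL

open Pool.Agent.Helper2.MK Pool.Agent.Helper50.HL Pool.Agent.Helper2.RO

variable {E : Type*} [NormedAddCommGroup E] [InnerProductSpace ℝ E] [FiniteDimensional ℝ E]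

variable (E) in
/-- The symmetric operators of trace `0`. -/
def P2 : Submodule ℝ (E →L[ℝ] E) where
  carrier := {S | (∀ x y : E, inner ℝ (S x) y = inner ℝ x (S y)) ∧
    LinearMap.trace ℝ E (S : E →ₗ[ℝ] E) = 0}
  add_mem' := by
    rintro S T ⟨h1, h2⟩ ⟨h3, h4⟩
    refine ⟨fun x y => ?_, ?_⟩
    · show inner ℝ (S x + T x) y = inner ℝ x (S y + T y)
      rw [inner_add_left, inner_add_right, h1, h3]
    · rw [ContinuousLinearMap.toLinearMap_add, map_add, h2, h4, add_zero]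
  zero_mem' := by
    refine ⟨fun x y => ?_, ?_⟩
    · simp
    · simp
  smul_mem' := by
    rintro c S ⟨h1, h2⟩
    refine ⟨fun x y => ?_, ?_⟩
    · show inner ℝ (c • S x) y = inner ℝ x (c • S y)
      rw [inner_smul_left, inner_smul_right, h1, conj_trivial]
    · rw [ContinuousLinearMap.toLinearMap_smul, map_smul, h2, smul_zero]

theorem mem_P2 {S : E →L[ℝ] E} : S ∈ P2 E ↔ (∀ x y : E, inner ℝ (S x) y = inner ℝ x (S y)) ∧
    LinearMap.trace ℝ E (S : E →ₗ[ℝ] E) = 0 := Iff.rfl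

/-- Cayley-Hamilton in dimension 2. -/
theorem ch_lin (h2 : Module.finrank ℝ E = 2) (T : E →ₗ[ℝ] E) :
    T * T = LinearMap.trace ℝ E T • T - LinearMap.det T • (1 : E →ₗ[ℝ] E) := by
  let b := Module.finBasisOfFinrankEq ℝ E h2
  apply (LinearMap.toMatrix b b).injective
  rw [LinearMap.toMatrix_mul, map_sub, map_smul, map_smul, LinearMap.toMatrix_one,
    LinearMap.trace_eq_matrix_trace ℝ b, ← LinearMap.det_toMatrix b]
  generalize LinearMap.toMatrix b b T = M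
  ext i j
  fin_cases i <;> fin_cases j <;>
    simp [Matrix.mul_apply, Fin.sum_univ_two, Matrix.trace_fin_two, Matrix.det_fin_two] <;> ring

theorem ch (h2 : Module.finrank ℝ E = 2) (T : E →L[ℝ] E) (x : E) :
    T (T x) = LinearMap.trace ℝ E (T : E →ₗ[ℝ] E) • T x
      - LinearMap.det (T : E →ₗ[ℝ] E) • x := by
  have := congrArg (fun A : E →ₗ[ℝ] E => A x) (ch_lin h2 (T : E →ₗ[ℝ] E))
  simpa using this

/-- `det (a + s T)` in dimension 2. -/
theorem det_add_smul (h2 : Module.finrank ℝ E = 2) (T : E →ₗ[ℝ] E) (a s : ℝ) :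
    LinearMap.det (a • (1 : E →ₗ[ℝ] E) + s • T) =
      a ^ 2 + a * s * LinearMap.trace ℝ E T + s ^ 2 * LinearMap.det T := by
  let b := Module.finBasisOfFinrankEq ℝ E h2
  rw [← LinearMap.det_toMatrix b, ← LinearMap.det_toMatrix b, map_add, map_smul, map_smul,
    LinearMap.toMatrix_one, LinearMap.trace_eq_matrix_trace ℝ b]
  generalize LinearMap.toMatrix b b T = M
  simp [Matrix.trace_fin_two, Matrix.det_fin_two]
  ring

theorem one_coe : ((1 : E →L[ℝ] E) : E →ₗ[ℝ] E) = 1 := rfl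

theorem P2_sq (h2 : Module.finrank ℝ E = 2) {S : E →L[ℝ] E} (hS : S ∈ P2 E) :
    S * S = (‖S‖ ^ 2) • (1 : E →L[ℝ] E) := by
  have h1 : S * S = (-LinearMap.det (S : E →ₗ[ℝ] E)) • (1 : E →L[ℝ] E) := by
    ext x
    show S (S x) = (-LinearMap.det (S : E →ₗ[ℝ] E)) • x
    rw [ch h2, hS.2, zero_smul, zero_sub, neg_smul]
  have h3 := norm_sq_of_symm hS.1
  have : Nontrivial E := Module.nontrivial_of_finrank_pos (R := ℝ) (by omega)
  obtain ⟨x, hx⟩ := exists_ne (0 : E)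
  have h4 : ‖S x‖ ^ 2 = (-LinearMap.det (S : E →ₗ[ℝ] E)) * ‖x‖ ^ 2 := by
    rw [← real_inner_self_eq_norm_sq, hS.1]
    have : S (S x) = (-LinearMap.det (S : E →ₗ[ℝ] E)) • x :=
      congrArg (fun A : E →L[ℝ] E => A x) h1
    rw [this, inner_smul_right, real_inner_self_eq_norm_sq]
  have h5 : 0 ≤ -LinearMap.det (S : E →ₗ[ℝ] E) := by
    have hx2 : 0 < ‖x‖ ^ 2 := by positivity
    by_contra hcon
    push Not at hcon
    nlinarith [sq_nonneg ‖S x‖]
  rw [h1, norm_smul, Real.norm_of_nonneg h5, norm_one, mul_one] at h3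
  rw [← h3]
  exact h1

theorem P2_sq' (h2 : Module.finrank ℝ E = 2) {S : E →L[ℝ] E} (hS : S ∈ P2 E) (x : E) :
    S (S x) = (‖S‖ ^ 2) • x :=
  congrArg (fun A : E →L[ℝ] E => A x) (P2_sq h2 hS)

theorem P2_cube (h2 : Module.finrank ℝ E = 2) {S : E →L[ℝ] E} (hS : S ∈ P2 E) :
    S * S * S = (‖S‖ ^ 2) • S := by
  rw [P2_sq h2 hS, smul_mul_assoc, one_mul]

theorem det_P2 (h2 : Module.finrank ℝ E = 2) {S : E →L[ℝ] E} (hS : S ∈ P2 E) :
    LinearMap.det (S : E →ₗ[ℝ] E) = -‖S‖ ^ 2 := by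
  have : Nontrivial E := Module.nontrivial_of_finrank_pos (R := ℝ) (by omega)
  obtain ⟨x, hx⟩ := exists_ne (0 : E)
  have h1 := ch h2 S x
  rw [P2_sq' h2 hS, hS.2, zero_smul, zero_sub, ← neg_smul] at h1
  have h3 : ‖S‖ ^ 2 = -LinearMap.det (S : E →ₗ[ℝ] E) := smul_left_injective ℝ hx h1
  linarith

/-- `exp S = cosh r + (sinh r / r) S` if `S ^ 2 = r ^ 2`. -/
theorem exp_of_sq {S : E →L[ℝ] E} {r : ℝ} (hr : r ≠ 0) (h : S * S = (r ^ 2) • (1 : E →L[ℝ] E)) :
    ex S = Real.cosh r • (1 : E →L[ℝ] E) + (Real.sinh r / r) • S := by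
  have h1 : S * S * S = r ^ 2 • S := by rw [h, smul_mul_assoc, one_mul]
  have h2 := exp_cubic hr h1
  show NormedSpace.exp S = _
  rw [h2, h, smul_smul]
  have h3 : (Real.cosh r - 1) / r ^ 2 * r ^ 2 = Real.cosh r - 1 := by field_simp
  rw [h3]
  module

/-- `exp S = cosh ‖S‖ + (sinh ‖S‖ / ‖S‖) S`. -/
theorem ex_P2 (h2 : Module.finrank ℝ E = 2) {S : E →L[ℝ] E} (hS : S ∈ P2 E) :
    ex S = Real.cosh ‖S‖ • (1 : E →L[ℝ] E) + (Real.sinh ‖S‖ / ‖S‖) • S := by
  rcases eq_or_ne S 0 with rfl | hS0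
  · rw [ex_zero]; simp
  exact exp_of_sq (norm_ne_zero_iff.2 hS0) (P2_sq h2 hS)

theorem ex_P2_symm (h2 : Module.finrank ℝ E = 2) {S : E →L[ℝ] E} (hS : S ∈ P2 E) (x y : E) :
    inner ℝ (ex S x) y = inner ℝ x (ex S y) := by
  rw [ex_P2 h2 hS]
  show inner ℝ (Real.cosh ‖S‖ • x + (Real.sinh ‖S‖ / ‖S‖) • S x) y =
    inner ℝ x (Real.cosh ‖S‖ • y + (Real.sinh ‖S‖ / ‖S‖) • S y)
  rw [inner_add_left, inner_add_right, inner_smul_left, inner_smul_right, inner_smul_left,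
    inner_smul_right, conj_trivial, conj_trivial, hS.1]

theorem ex_half (S : E →L[ℝ] E) (x : E) : ex S x = ex ((1 / 2 : ℝ) • S) (ex ((1 / 2 : ℝ) • S) x) := by
  have h := ex_two ((1 / 2 : ℝ) • S)
  rw [smul_smul] at h
  norm_num at h
  rw [h]
  rfl

theorem ex_P2_pos (h2 : Module.finrank ℝ E = 2) {S : E →L[ℝ] E} (hS : S ∈ P2 E) (x : E) :
    0 ≤ inner ℝ (ex S x) x := by
  rw [ex_half, ex_P2_symm h2 ((P2 E).smul_mem _ hS)]
  exact real_inner_self_nonneg

theorem det_ex_P2 (h2 : Module.finrank ℝ E = 2) {S : E →L[ℝ] E} (hS : S ∈ P2 E) :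
    LinearMap.det (ex S : E →ₗ[ℝ] E) = 1 := by
  rw [ex_P2 h2 hS]
  have h1 := det_add_smul h2 (S : E →ₗ[ℝ] E) (Real.cosh ‖S‖) (Real.sinh ‖S‖ / ‖S‖)
  have h3 : ((Real.cosh ‖S‖ • (1 : E →L[ℝ] E) + (Real.sinh ‖S‖ / ‖S‖) • S : E →L[ℝ] E) :
      E →ₗ[ℝ] E) = Real.cosh ‖S‖ • (1 : E →ₗ[ℝ] E) + (Real.sinh ‖S‖ / ‖S‖) • (S : E →ₗ[ℝ] E) := rfl
  rw [h3, h1, hS.2, det_P2 h2 hS]
  rcases eq_or_ne S 0 with rfl | hS0
  · simp
  have hn : ‖S‖ ≠ 0 := norm_ne_zero_iff.2 hS0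
  have h4 : (Real.sinh ‖S‖ / ‖S‖) ^ 2 * -‖S‖ ^ 2 = - Real.sinh ‖S‖ ^ 2 := by field_simp
  rw [h4]
  have := Real.cosh_sq_sub_sinh_sq ‖S‖
  linarith

/-- A positive symmetric operator of determinant `1` of the plane is an exponential. -/
theorem exists_log (h2 : Module.finrank ℝ E = 2) {B : E →L[ℝ] E}
    (hsym : ∀ x y : E, inner ℝ (B x) y = inner ℝ x (B y)) (hpos : ∀ x : E, 0 ≤ inner ℝ (B x) x)
    (hdet : LinearMap.det (B : E →ₗ[ℝ] E) = 1) : ∃ R ∈ P2 E, B = ex R := by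
  have : Nontrivial E := Module.nontrivial_of_finrank_pos (R := ℝ) (by omega)
  obtain ⟨x, hx⟩ := exists_ne (0 : E)
  have hx2 : 0 < ‖x‖ ^ 2 := by positivity
  set τ := LinearMap.trace ℝ E (B : E →ₗ[ℝ] E) / 2 with hτ
  have hch : ∀ x, B (B x) = (2 * τ) • B x - x := by
    intro x
    have := ch h2 B x
    rw [hdet, one_smul] at this
    rw [this, hτ]
    congr 2
    ring
  set R0 : E →L[ℝ] E := B - τ • 1 with hR0
  have hR0a : ∀ x, R0 x = B x - τ • x := fun x => rfl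
  have hR0P : R0 ∈ P2 E := by
    refine ⟨fun x y => ?_, ?_⟩
    · rw [hR0a, hR0a, inner_sub_left, inner_sub_right, hsym, inner_smul_left, inner_smul_right,
        conj_trivial]
    · have h1 : (R0 : E →ₗ[ℝ] E) = (B : E →ₗ[ℝ] E) - τ • (1 : E →ₗ[ℝ] E) := rfl
      rw [h1, map_sub, map_smul, LinearMap.trace_one, h2, hτ]
      simp
  have hR0sq : R0 * R0 = (τ ^ 2 - 1) • (1 : E →L[ℝ] E) := by
    ext y
    show R0 (R0 y) = (τ ^ 2 - 1) • y
    rw [hR0a, hR0a, map_sub, map_smul, hch]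
    module
  have h3 : ‖R0‖ ^ 2 = τ ^ 2 - 1 := by
    have h4 := P2_sq' h2 hR0P x
    have h5 : R0 (R0 x) = (τ ^ 2 - 1) • x := congrArg (fun A : E →L[ℝ] E => A x) hR0sq
    rw [h5] at h4
    exact (smul_left_injective ℝ hx h4).symm
  have hτ0 : 0 ≤ τ := by
    have hBx : B x ≠ 0 := by
      intro h0
      have := hch x
      rw [h0, map_zero, smul_zero, zero_sub, eq_comm, neg_eq_zero] at this
      exact hx this
    have h4 : 0 < ‖B x‖ ^ 2 := by positivity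
    have h5 := hpos (B x)
    rw [hch, inner_sub_left, inner_smul_left, conj_trivial, real_inner_self_eq_norm_sq,
      real_inner_comm] at h5
    have h6 := hpos x
    by_contra hcon
    push Not at hcon
    nlinarith
  have hτ1 : 1 ≤ τ := by nlinarith [sq_nonneg ‖R0‖]
  rcases hτ1.eq_or_lt with h1 | h1
  · refine ⟨0, (P2 E).zero_mem, ?_⟩
    rw [ex_zero]
    have h4 : ‖R0‖ ^ 2 = 0 := by rw [h3, ← h1]; ring
    have h5 : R0 = 0 := by
      have := pow_eq_zero_iff (two_ne_zero) |>.1 h4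
      exact norm_eq_zero.1 this
    ext y
    have h6 : R0 y = 0 := by rw [h5]; rfl
    rw [hR0a, ← h1, one_smul, sub_eq_zero] at h6
    exact h6
  · set r := Real.arcosh τ with hr
    have hc : Real.cosh r = τ := Real.cosh_arcosh hτ1
    have hrpos : 0 < r := Real.arcosh_pos h1
    have hsh : 0 < Real.sinh r := Real.sinh_pos_iff.2 hrpos
    have hsq : τ ^ 2 - 1 = Real.sinh r ^ 2 := by
      have := Real.cosh_sq_sub_sinh_sq r
      rw [hc] at this
      linarith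
    refine ⟨(r / Real.sinh r) • R0, (P2 E).smul_mem _ hR0P, ?_⟩
    have h4 : ((r / Real.sinh r) • R0) * ((r / Real.sinh r) • R0) = (r ^ 2) • (1 : E →L[ℝ] E) := by
      rw [smul_mul_smul_comm, hR0sq, hsq, smul_smul]
      congr 1
      field_simp
    rw [exp_of_sq hrpos.ne' h4, hc, smul_smul]
    have h5 : Real.sinh r / r * (r / Real.sinh r) = 1 := by field_simp
    rw [h5, one_smul, hR0]
    module

theorem isCartan_P2 (h2 : Module.finrank ℝ E = 2) : IsCartan (P2 E) where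
  symm S hS := hS.1
  cube S hS := P2_cube h2 hS
  tri S hS T hT := by
    obtain ⟨R, hR, h⟩ := exists_log h2 (B := ex S * ex T * ex S) (fun x y => by
        show inner ℝ (ex S (ex T (ex S x))) y = inner ℝ x (ex S (ex T (ex S y)))
        rw [ex_P2_symm h2 hS, ex_P2_symm h2 hT, ex_P2_symm h2 hS])
      (fun x => by
        show 0 ≤ inner ℝ (ex S (ex T (ex S x))) x
        rw [ex_P2_symm h2 hS]
        exact ex_P2_pos h2 hT _)
      (by
        have : ((ex S * ex T * ex S : E →L[ℝ] E) : E →ₗ[ℝ] E) =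
          (ex S : E →ₗ[ℝ] E) * (ex T : E →ₗ[ℝ] E) * (ex S : E →ₗ[ℝ] E) := rfl
        rw [this, map_mul, map_mul, det_ex_P2 h2 hS, det_ex_P2 h2 hT]
        norm_num)
    exact ⟨R, hR, h⟩

/-- The eigenspaces of the unit operators of `P2 E` are lines. -/
theorem rank_one_P2 (h2 : Module.finrank ℝ E = 2) : ∀ z ∈ P2 E, ‖z‖ = 1 → ∃ ν : E, ‖ν‖ = 1 ∧
    ∀ x, top z x = (inner ℝ ν x : ℝ) • ν := by
  intro z hz h1
  have hP := isCartan_P2 h2
  have htop : ∀ x, top z x = (1 / 2 : ℝ) • (x + z x) := by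
    intro x
    unfold top
    rw [h1, inv_one, one_smul, P2_sq h2 hz, h1]
    simp
  have hproj : LinearMap.IsProj (LinearMap.range (top z : E →ₗ[ℝ] E)) (top z : E →ₗ[ℝ] E) :=
    ⟨fun x => ⟨x, rfl⟩, by
      rintro _ ⟨y, rfl⟩
      exact top_top hP hz y⟩
  have htr := hproj.trace
  have htr2 : LinearMap.trace ℝ E (top z : E →ₗ[ℝ] E) = 1 := by
    have h3 : (top z : E →ₗ[ℝ] E) = (1 / 2 : ℝ) • ((1 : E →ₗ[ℝ] E) + (z : E →ₗ[ℝ] E)) := by
      ext x
      exact htop x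
    rw [h3, map_smul, map_add, hz.2, LinearMap.trace_one, h2]
    norm_num
  rw [htr2] at htr
  have hrank : Module.finrank ℝ (LinearMap.range (top z : E →ₗ[ℝ] E)) = 1 := by
    exact_mod_cast htr.symm
  obtain ⟨⟨v, hv⟩, hv0, hv1⟩ := finrank_eq_one_iff'.1 hrank
  have hv0' : v ≠ 0 := fun h => hv0 (Subtype.ext h)
  have hvn : ‖v‖ ≠ 0 := norm_ne_zero_iff.2 hv0'
  obtain ⟨v', hv'⟩ := hv
  have hfix : top z v = v := by
    rw [← hv']
    exact top_top hP hz v'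
  refine ⟨‖v‖⁻¹ • v, by rw [norm_smul, norm_inv, norm_norm, inv_mul_cancel₀ hvn], fun x => ?_⟩
  obtain ⟨c, hc⟩ := hv1 ⟨top z x, x, rfl⟩
  have hc' : c • v = top z x := congrArg Subtype.val hc
  have h4 : inner ℝ v x = c * ‖v‖ ^ 2 := by
    have h5 : inner ℝ v x = inner ℝ v (top z x) := by
      conv_lhs => rw [← hfix]
      exact top_symm hP hz v x
    rw [h5, ← hc', inner_smul_right, real_inner_self_eq_norm_sq]
  rw [← hc', inner_smul_left, conj_trivial, h4, smul_smul]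
  congr 1
  field_simp

theorem det_adj (T : E →ₗ[ℝ] E) : LinearMap.det (LinearMap.adjoint T) = LinearMap.det T := by
  let b := stdOrthonormalBasis ℝ E
  rw [← LinearMap.det_toMatrix b.toBasis, LinearMap.toMatrix_adjoint, Matrix.det_conjTranspose,
    LinearMap.det_toMatrix]
  exact conj_trivial _

/-- A linear map of determinant `±1` permutes the norms `x ↦ ‖exp(S) x‖`, `S ∈ P2 E`. -/
theorem pres_P2 (h2 : Module.finrank ℝ E = 2) (A : E →ₗ[ℝ] E) (hA : |LinearMap.det A| = 1)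
    {S : E →L[ℝ] E} (hS : S ∈ P2 E) : ∃ S' ∈ P2 E, ∀ x, ‖ex S' (A x)‖ = ‖ex S x‖ := by
  have hA0 : LinearMap.det A ≠ 0 := by
    intro h
    rw [h, abs_zero] at hA
    exact one_ne_zero hA.symm
  let e : E ≃ₗ[ℝ] E := LinearEquiv.ofIsUnitDet (f := A) (v := Module.finBasis ℝ E)
    (v' := Module.finBasis ℝ E) (by
      rw [← LinearMap.det_toMatrix (Module.finBasis ℝ E)] at hA0
      exact isUnit_iff_ne_zero.2 hA0)
  have he : ∀ x, e x = A x := fun x => rfl
  let C : E →L[ℝ] E := LinearMap.toContinuousLinearMap (e.symm : E →ₗ[ℝ] E)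
  have hCA : ∀ x, C (A x) = x := fun x => e.symm_apply_apply x
  have h2S : (2 : ℝ) • S ∈ P2 E := (P2 E).smul_mem _ hS
  let B : E →L[ℝ] E := ContinuousLinearMap.adjoint C * ex ((2 : ℝ) • S) * C
  have hB : ∀ x y, inner ℝ (B x) y = inner ℝ (ex ((2 : ℝ) • S) (C x)) (C y) := fun x y =>
    ContinuousLinearMap.adjoint_inner_left C y _
  obtain ⟨R, hR, hR'⟩ := exists_log h2 (B := B) (fun x y => by
      rw [hB, ex_P2_symm h2 h2S, ← real_inner_comm x (B y), hB y x, real_inner_comm])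
    (fun x => by
      rw [hB]
      exact ex_P2_pos h2 h2S _)
    (by
      have h3 : (B : E →ₗ[ℝ] E) = LinearMap.adjoint (e.symm : E →ₗ[ℝ] E) *
        (ex ((2 : ℝ) • S) : E →ₗ[ℝ] E) * (e.symm : E →ₗ[ℝ] E) := rfl
      rw [h3, map_mul, map_mul, det_ex_P2 h2 h2S, det_adj, mul_one]
      have h4 : LinearMap.det (e.symm : E →ₗ[ℝ] E) * LinearMap.det A = 1 := by
        rw [← map_mul]
        have : (e.symm : E →ₗ[ℝ] E) * A = 1 := by
          ext x
          exact e.symm_apply_apply x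
        rw [this, map_one]
      have h5 : LinearMap.det A * LinearMap.det A = 1 := by
        rw [← abs_mul_abs_self, hA, mul_one]
      calc LinearMap.det (e.symm : E →ₗ[ℝ] E) * LinearMap.det (e.symm : E →ₗ[ℝ] E)
          = (LinearMap.det (e.symm : E →ₗ[ℝ] E) * LinearMap.det A) *
            (LinearMap.det (e.symm : E →ₗ[ℝ] E) * LinearMap.det A) := by
            rw [mul_mul_mul_comm, h5, mul_one]
        _ = 1 := by rw [h4, mul_one])
  refine ⟨(1 / 2 : ℝ) • R, (P2 E).smul_mem _ hR, fun x => ?_⟩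
  have hP := isCartan_P2 h2
  have h3 : ‖ex ((1 / 2 : ℝ) • R) (A x)‖ ^ 2 = ‖ex S x‖ ^ 2 := by
    rw [norm_ex_sq_inner hP ((P2 E).smul_mem _ hR), norm_ex_sq_inner hP hS, smul_smul]
    norm_num
    rw [← hR', hB, hCA]
  exact (sq_eq_sq₀ (norm_nonneg _) (norm_nonneg _)).1 h3

end Pool.Agent.FOL
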