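import Pool.Agent.FOL.Core
import Pool.Agent.FOL.Restrict
import Pool.Agent.FOL.Two
import Pool.Agent.Helper2.RO.Cartan

/-!
# Translation of the hypotheses: groups of rank one type, simple eigenvalues, finite action on `V / E`
-/

set_option autoImplicit false
set_option linter.unusedSectionVars false

open Set Filter Topology

namespace Pool.Agent.FOL

open Pool.Agent.Helper2.MK Pool.Agent.Helper50.HL Pool.Agent.Helper2.RO

section Group

variable {E : Type*} [NormedAddCommGroup E] [InnerProductSpace ℝ E] [FiniteDimensional ℝ E]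

/-- `G₀` is closed under adjoints, its positive elements are the exponentials of the elements of
the linear space `P` of symmetric operators, and `S ^ 3 ∈ ℝ S` for `S ∈ P`. -/
theorem cartan_of_group (G₀ : Subgroup (E ≃L[ℝ] E)) (P : Submodule ℝ (E →L[ℝ] E))
    (hadj : ∀ A ∈ G₀, ∃ B ∈ G₀, ∀ x y : E, inner ℝ (A x) y = inner ℝ x (B y))
    (hsym : ∀ S ∈ P, ∀ x y : E, inner ℝ (S x) y = inner ℝ x (S y))
    (hpos : ∀ A : E ≃L[ℝ] E, (A ∈ G₀ ∧ (A : E →L[ℝ] E).IsPositive) ↔
      ∃ S ∈ P, (A : E →L[ℝ] E) = NormedSpace.exp S)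
    (hcube : ∀ S ∈ P, ∃ c : ℝ, S * S * S = c • S) :
    IsCartan P ∧ ∀ L ∈ G₀, ∀ S ∈ P, ∃ S' ∈ P, ∀ x, ‖ex S' (L x)‖ = ‖ex S x‖ := by
  have hmem : ∀ S ∈ P, exEquiv S ∈ G₀ ∧ (exEquiv S : E →L[ℝ] E).IsPositive := fun S hS =>
    (hpos _).2 ⟨S, hS, rfl⟩
  have hexsym : ∀ S ∈ P, ∀ x y : E, inner ℝ (ex S x) y = inner ℝ x (ex S y) := fun S hS x y =>
    (hmem S hS).2.inner_left_eq_inner_right x y
  have hexpos : ∀ S ∈ P, ∀ x : E, 0 ≤ inner ℝ (ex S x) x := fun S hS x =>
    (hmem S hS).2.inner_nonneg_left x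
  have htri : ∀ S ∈ P, ∀ T ∈ P, ∃ R ∈ P, ex S * ex T * ex S = ex R := by
    intro S hS T hT
    obtain ⟨R, hR, hR'⟩ := (hpos (exEquiv S * exEquiv T * exEquiv S)).1
      ⟨G₀.mul_mem (G₀.mul_mem (hmem S hS).1 (hmem T hT).1) (hmem S hS).1, by
        rw [ContinuousLinearMap.isPositive_iff]
        refine ⟨fun x y => ?_, fun x => ?_⟩
        · show inner ℝ (ex S (ex T (ex S x))) y = inner ℝ x (ex S (ex T (ex S y)))
          rw [hexsym S hS, hexsym T hT, hexsym S hS]
        · show 0 ≤ inner ℝ (ex S (ex T (ex S x))) x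
          rw [hexsym S hS]
          exact hexpos T hT _⟩
    exact ⟨R, hR, hR'⟩
  have hcart : IsCartan P := ⟨hsym, fun S hS => cube_of_smul (hsym S hS) (hcube S hS), htri⟩
  refine ⟨hcart, fun L hL S hS => ?_⟩
  obtain ⟨B, hB, hB'⟩ := hadj _ (G₀.inv_mem hL)
  have h2S : (2 : ℝ) • S ∈ P := P.smul_mem _ hS
  have hBs : ∀ u y : E, inner ℝ (B u) y = inner ℝ u (L⁻¹ y) := fun u y => by
    rw [real_inner_comm, ← hB', real_inner_comm]
  obtain ⟨S2, hS2, hS2'⟩ := (hpos (B * exEquiv ((2 : ℝ) • S) * L⁻¹)).1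
    ⟨G₀.mul_mem (G₀.mul_mem hB (hmem _ h2S).1) (G₀.inv_mem hL), by
      rw [ContinuousLinearMap.isPositive_iff]
      refine ⟨fun x y => ?_, fun x => ?_⟩
      · show inner ℝ (B (ex ((2 : ℝ) • S) (L⁻¹ x))) y = inner ℝ x (B (ex ((2 : ℝ) • S) (L⁻¹ y)))
        rw [hBs, ← hB', hexsym _ h2S]
      · show 0 ≤ inner ℝ (B (ex ((2 : ℝ) • S) (L⁻¹ x))) x
        rw [hBs]
        exact hexpos _ h2S _⟩
  have hS3 : (1 / 2 : ℝ) • S2 ∈ P := P.smul_mem _ hS2
  refine ⟨(1 / 2 : ℝ) • S2, hS3, fun x => ?_⟩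
  have h1 : ‖ex ((1 / 2 : ℝ) • S2) (L x)‖ ^ 2 = ‖ex S x‖ ^ 2 := by
    rw [norm_ex_sq_inner hcart hS3, norm_ex_sq_inner hcart hS, smul_smul]
    have h3 : (2 : ℝ) * (1 / 2) = 1 := by norm_num
    rw [h3, one_smul]
    have h4 : ex S2 (L x) = B (ex ((2 : ℝ) • S) (L⁻¹ (L x))) := by
      have := congrArg (fun T : E →L[ℝ] E => T (L x)) hS2'
      exact this.symm
    have h5 : L⁻¹ (L x) = x := L.symm_apply_apply x
    rw [h4, h5, hBs, h5]
  exact (sq_eq_sq₀ (norm_nonneg _) (norm_nonneg _)).1 h1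

/-- simple top eigenvalues -/
theorem rk1_of_simple {P : Submodule ℝ (E →L[ℝ] E)} (hP : IsCartan P)
    (h : ∀ S ∈ P, S ≠ 0 →
      Module.finrank ℝ (Module.End.eigenspace (S : E →ₗ[ℝ] E) ‖S‖) = 1) : Rk1 P := by
  intro z hz hz1
  have hz0 : z ≠ 0 := by
    rintro rfl
    rw [norm_zero] at hz1
    exact zero_ne_one hz1
  have h1 := h z hz hz0
  rw [hz1] at h1
  obtain ⟨v, hv0, hv⟩ := finrank_eq_one_iff'.mp h1
  have hmem : ∀ x : E, z x = x → x ∈ Module.End.eigenspace (z : E →ₗ[ℝ] E) 1 := fun x hx => by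
    rw [Module.End.mem_eigenspace_iff, one_smul]
    exact hx
  have hv1 : z (v : E) = v := by
    have := (Module.End.mem_eigenspace_iff).1 v.2
    rw [one_smul] at this
    exact this
  have hvn : 0 < ‖(v : E)‖ := by
    rw [norm_pos_iff]
    intro h0
    exact hv0 (Subtype.ext h0)
  set ν : E := ‖(v : E)‖⁻¹ • (v : E) with hν
  have hνn : ‖ν‖ = 1 := by
    rw [hν, norm_smul, norm_inv, norm_norm, inv_mul_cancel₀ hvn.ne']
  have hνz : z ν = ν := by rw [hν, map_smul, hv1]
  refine ⟨ν, hνn, fun x => ?_⟩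
  have h2 : z (top z x) = top z x := by
    rw [fix_iff hP hz hz1]
    exact top_top hP hz x
  obtain ⟨c, hc⟩ := hv ⟨top z x, hmem _ h2⟩
  have hc' : c • (v : E) = top z x := congrArg Subtype.val hc
  have h3 : top z x = (c * ‖(v : E)‖) • ν := by
    rw [← hc', hν, smul_smul, mul_assoc, mul_inv_cancel₀ hvn.ne', mul_one]
  have h4 : inner ℝ ν x = (c * ‖(v : E)‖ : ℝ) := by
    have h5 : top z ν = ν := (fix_iff hP hz hz1).1 hνz
    have h6 := top_symm hP hz ν x
    rw [h5] at h6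
    rw [h6, h3, inner_smul_right, real_inner_self_eq_norm_sq, hνn]
    ring
  rw [h4]
  exact h3

end Group

section Det

variable {V G Y : Type*} [NormedAddCommGroup V] [InnerProductSpace ℝ V] [FiniteDimensional ℝ V]
    [Group G] [TopologicalSpace Y] [MulAction G Y] (M : AffineDeveloping V G Y)

/-- The linear holonomy preserves `E` and acts on `V / E` through a finite group. -/
structure FiniteQuot (E : Submodule ℝ V) : Prop where
  hE : ∀ (g : G), ∀ x ∈ E, (M.hol g).linear x ∈ E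
  hfin : ∃ T : Finset G, ∀ g, ∃ t ∈ T, ∀ x, (M.hol g).linear x - (M.hol t).linear x ∈ E

theorem FiniteQuot.det {E : Submodule ℝ V} (h : FiniteQuot M E) (g : G) :
    |LinearMap.det (((M.hol g).linear : V →ₗ[ℝ] V).restrict (h.hE g))| = 1 := by
  obtain ⟨T, hT⟩ := h.hfin
  let f : G → (V ⧸ E →ₗ[ℝ] V ⧸ E) := fun g =>
    E.mapQ E ((M.hol g).linear : V →ₗ[ℝ] V) (h.hE g)
  have hf : ∀ g, ∃ t ∈ T, f g = f t := by
    intro g
    obtain ⟨t, ht, h1⟩ := hT g
    refine ⟨t, ht, ?_⟩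
    apply LinearMap.ext
    intro q
    induction q using Submodule.Quotient.induction_on with
    | H x =>
      show E.mkQ ((M.hol g).linear x) = E.mkQ ((M.hol t).linear x)
      rw [← sub_eq_zero, ← map_sub]
      exact (Submodule.Quotient.mk_eq_zero E).2 (h1 x)
  have hmul : ∀ g g', f (g * g') = f g * f g' := by
    intro g g'
    apply LinearMap.ext
    intro q
    induction q using Submodule.Quotient.induction_on with
    | H x =>
      show E.mkQ ((M.hol (g * g')).linear x) = E.mkQ ((M.hol g).linear ((M.hol g').linear x))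
      congr 1
      exact lin_mul M g g' x
  have hone : f 1 = 1 := by
    apply LinearMap.ext
    intro q
    induction q using Submodule.Quotient.induction_on with
    | H x =>
      show E.mkQ ((M.hol 1).linear x) = E.mkQ x
      congr 1
      exact lin_one M x
  have hpow : ∀ n : ℕ, f (g ^ n) = f g ^ n := by
    intro n
    induction n with
    | zero => rw [pow_zero, pow_zero, hone]
    | succ n ih => rw [pow_succ, pow_succ, hmul, ih]
  have hunit : f g * f g⁻¹ = 1 := by rw [← hmul, mul_inv_cancel, hone]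
  have hd0 : LinearMap.det (f g) ≠ 0 := by
    intro h0
    have h1 := congrArg LinearMap.det hunit
    rw [map_mul, h0, zero_mul, map_one] at h1
    exact zero_ne_one h1
  -- pigeonhole
  have hfinite : (range fun n : ℕ => f (g ^ n)).Finite := by
    refine (T.finite_toSet.image f).subset ?_
    rintro _ ⟨n, rfl⟩
    obtain ⟨t, ht, h1⟩ := hf (g ^ n)
    exact ⟨t, ht, h1.symm⟩
  have hnotinj : ¬ Function.Injective fun n : ℕ => f (g ^ n) := by
    intro hinj
    exact Set.infinite_range_of_injective hinj hfinite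
  have hdq : |LinearMap.det (f g)| = 1 := by
    by_contra hne
    apply hnotinj
    intro i j hij
    have h1 : f (g ^ i) = f (g ^ j) := hij
    rw [hpow, hpow] at h1
    have h2 := congrArg (fun A => |LinearMap.det A|) h1
    simp only [map_pow, abs_pow] at h2
    have h3 : 0 < |LinearMap.det (f g)| := abs_pos.mpr hd0
    exact pow_right_injective₀ h3 hne h2
  have h1 := LinearMap.det_eq_det_mul_det E ((M.hol g).linear : V →ₗ[ℝ] V) (h.hE g)
  have h2 : |LinearMap.det ((M.hol g).linear : V →ₗ[ℝ] V)| = 1 := M.volume_hol g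
  rw [h1, abs_mul] at h2
  have h3 : |LinearMap.det (E.mapQ E ((M.hol g).linear : V →ₗ[ℝ] V) (h.hE g))| = 1 := hdq
  rw [h3, mul_one] at h2
  exact h2

end Det

end Pool.Agent.FOL
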