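import Pool.Agent.FOL.Fin
import Pool.Agent.Helper12.FOL.Push
import Pool.Agent.Helper12.FOL.Stab
import Pool.Agent.FOL.AlgThree

/-!
# Compact affine manifolds with a parallel foliation of rank one type are complete
-/

set_option autoImplicit false
set_option linter.unusedSectionVars false

open Set Filter Topology

namespace Pool.Agent.FOL

open Pool.Agent.Helper2.MK Pool.Agent.Helper50.HL Pool.Agent.Helper2.RO

variable {V G Y : Type*} [NormedAddCommGroup V] [InnerProductSpace ℝ V] [FiniteDimensional ℝ V]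
    [Group G] [TopologicalSpace Y] [T2Space Y] [ConnectedSpace Y] [MulAction G Y]

/-- `G₀` is a group of linear automorphisms of the Euclidean space `F`, closed under adjoints,
whose positive elements are the exponentials of the elements of the linear space `P` of symmetric
operators, `S ^ 3 ∈ ℝ S` for `S ∈ P`, and the eigenvalue `‖S‖` of `S` is simple if `S ≠ 0`. -/
structure RankOneType {F : Type*} [NormedAddCommGroup F] [InnerProductSpace ℝ F]
    (G₀ : Subgroup (F ≃L[ℝ] F)) (P : Submodule ℝ (F →L[ℝ] F)) : Prop where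
  adj : ∀ A ∈ G₀, ∃ B ∈ G₀, ∀ x y : F, inner ℝ (A x) y = inner ℝ x (B y)
  symm : ∀ S ∈ P, ∀ x y : F, inner ℝ (S x) y = inner ℝ x (S y)
  pos : ∀ A : F ≃L[ℝ] F, (A ∈ G₀ ∧ (A : F →L[ℝ] F).IsPositive) ↔
    ∃ S ∈ P, (A : F →L[ℝ] F) = NormedSpace.exp S
  cube : ∀ S ∈ P, ∃ c : ℝ, S * S * S = c • S
  simple : ∀ S ∈ P, S ≠ 0 →
    Module.finrank ℝ (Module.End.eigenspace (S : F →ₗ[ℝ] F) ‖S‖) = 1

/-- trivial action on `V / E` -/
theorem main_trivial (D : FData V G Y) (hrk : Rk1 D.P)
    (htriv : ∀ g x, (D.hol g).linear x - x ∈ D.E) : ∃ e : Y ≃ₜ V, ⇑e = D.dev := by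
  let p : V →L[ℝ] D.Eᗮ := D.Eᗮ.orthogonalProjectionOnto
  have hker : ∀ x, p x = 0 ↔ x ∈ D.E := by
    intro x
    have h1 : p x = 0 ↔ x ∈ D.Eᗮᗮ := Submodule.orthogonalProjectionOnto_eq_zero_iff
    rw [h1, Submodule.orthogonal_orthogonal]
  have hp : Function.Surjective p := fun w =>
    ⟨(w : V), Submodule.orthogonalProjectionOnto_mem_subspace_eq_self w⟩
  have hinv : ∀ g x, p ((D.hol g).linear x) = p x := by
    intro g x
    rw [← sub_eq_zero, ← map_sub]
    exact (hker _).2 (htriv g x)
  have honto : ∀ w, ∃ y, p (D.dev y) = w := fibre_onto D.toAffineDeveloping p hp hinv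
  have hchain : ∀ y y' : Y, p (D.dev y) = p (D.dev y') → Relation.EqvGen
      (fun a b => ∃ e, p e = 0 ∧ D.dev a + e ∈ dom D.dev a ∧ b = sec D.dev a (D.dev a + e))
      y y' := fun y y' h => fibre_chain D.toAffineDeveloping p hp hinv h
  by_cases hall : ∀ y, LD D y = univ
  · exact complete_of_leaves D hrk hker hchain honto hall
  push Not at hall
  obtain ⟨y0, h0⟩ := hall
  exfalso
  obtain ⟨ν, hν⟩ := Dir.exists D hrk h0
  obtain ⟨T, hT⟩ := stab_of D hrk hker hinv hchain
    (fun ν ν' h => contracted_unique D.cartan hrk h)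
    (fun ν h1 hf h => three_dirs D.cartan hrk h1 hf h) h0 hν
  obtain ⟨T', hT'⟩ := exists_cover D hν.norm hT
  refine core D (restrictAD D.toAffineDeveloping (posStab D ν) T' hT') rfl hp hker
    (fun g x => hinv g x) honto hrk hchain h0 hν ?_
  rintro ⟨g, c, hc, hg⟩
  exact ⟨c, hc, fun x => hg x⟩

/-- finite action on `V / E` -/
theorem main_finite (D : FData V G Y) (hrk : Rk1 D.P)
    (hfin : ∃ T : Finset G, ∀ g, ∃ t ∈ T, ∀ x, (D.hol g).linear x - (D.hol t).linear x ∈ D.E) :
    ∃ e : Y ≃ₜ V, ⇑e = D.dev := by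
  classical
  obtain ⟨T, hT⟩ := hfin
  let M := D.toAffineDeveloping
  have hadd : ∀ g x, lin M g x = (D.hol g).linear x := fun _ _ => rfl
  let H : Subgroup G :=
    { carrier := {g | ∀ x, lin M g x - x ∈ D.E}
      one_mem' := fun x => by
        rw [lin_one, sub_self]; exact D.E.zero_mem
      mul_mem' := by
        intro a b ha hb x
        rw [lin_mul]
        have h1 : lin M a (lin M b x) - x = (lin M a (lin M b x) - lin M b x) + (lin M b x - x) := by
          abel
        rw [h1]
        exact D.E.add_mem (ha _) (hb _)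
      inv_mem' := by
        intro a ha x
        have h1 := ha (lin M a⁻¹ x)
        rw [lin_lin_inv] at h1
        have h2 := D.E.neg_mem h1
        rwa [neg_sub] at h2 }
  have hH : ∀ g, ∃ t ∈ T.image (fun t => t⁻¹), t * g ∈ H := by
    intro g
    obtain ⟨t, ht, h1⟩ := hT g
    refine ⟨t⁻¹, Finset.mem_image_of_mem _ ht, fun x => ?_⟩
    have h2 := D.hE t⁻¹ _ (h1 x)
    have h3 : (D.hol t⁻¹).linear ((D.hol g).linear x - (D.hol t).linear x) =
        lin M t⁻¹ (lin M g x) - lin M t⁻¹ (lin M t x) := by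
      rw [map_sub]; rfl
    rw [h3, lin_inv_lin, ← lin_mul] at h2
    exact h2
  exact main_trivial (restrictFD D H _ hH) hrk fun g x => g.2 x

/-- the case of an invariant plane -/
theorem main_plane (M : AffineDeveloping V G Y) (E : Submodule ℝ V)
    (h2 : Module.finrank ℝ E = 2) (h : FiniteQuot M E) : ∃ e : Y ≃ₜ V, ⇑e = M.dev := by
  let D : FData V G Y :=
    { toAffineDeveloping := M
      E := E
      hE := h.hE
      P := P2 E
      cartan := isCartan_P2 h2
      pres := fun g S hS =>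
        pres_P2 h2 (((M.hol g).linear : V →ₗ[ℝ] V).restrict (h.hE g)) (h.det M g) hS }
  exact main_finite D (rank_one_P2 h2) h.hfin

/-- the case of a group of rank one type with simple top eigenvalues -/
theorem main_group (M : AffineDeveloping V G Y) (E : Submodule ℝ V) (h : FiniteQuot M E)
    (G₀ : Subgroup (E ≃L[ℝ] E)) (P : Submodule ℝ (E →L[ℝ] E)) (hG : RankOneType G₀ P)
    (hlin : ∀ g : G, ∃ L ∈ G₀, ∀ x : E, (M.hol g).linear x = L x) :
    ∃ e : Y ≃ₜ V, ⇑e = M.dev := by
  obtain ⟨hcart, hpres⟩ := cartan_of_group G₀ P hG.adj hG.symm hG.pos hG.cube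
  let D : FData V G Y :=
    { toAffineDeveloping := M
      E := E
      hE := h.hE
      P := P
      cartan := hcart
      pres := fun g S hS => by
        obtain ⟨L, hL, hL'⟩ := hlin g
        obtain ⟨S', hS', h1⟩ := hpres L hL S hS
        refine ⟨S', hS', fun x => ?_⟩
        rw [← h1 x]
        congr 2
        exact Subtype.ext (hL' x) }
  exact main_finite D (rk1_of_simple hcart hG.simple) h.hfin

end Pool.Agent.FOL
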