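import Pool.Agent.FOL.Final

/-!
# Compact affine manifolds with a parallel foliation by planes, or of rank one type, are complete

Let `M` be a compact affine manifold with parallel volume modelled on the Euclidean space `V`, with an
arbitrary (not necessarily injective) developing map `dev : Y → V`.  Suppose that the linear holonomy
preserves a subspace `E` of `V` (so that `M` has a parallel foliation with leaves modelled on `E`),
and acts on `V / E` through a finite group.  If `E` is a plane, or if the action on `E` lies in a
group of rank one type with simple eigenvalues (for instance the orthogonal group of a Lorentzian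
form), then `M` is complete, i.e. `dev` is a homeomorphism of `Y` onto `V`.

In dimension `3`: every closed affine `3`-manifold with parallel volume and a parallel `1`-form (up to
sign) is complete.

Outline of the proof (files `Pool/Agent/FOL`, `Pool/Agent/Helper12/FOL`, `Pool/Agent/Helper2/RG`).
The star domains `D_y` of the points of `Y` inside their leaves are studied with the method of our
theorem `RankOne`, which is made independent of the group: the inverse radii of the largest
balls in `D_y` for the norms `x ↦ |exp(S) x|`, `S ∈ P`, are hyperbolically convex along rays of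
`P`, and their infimum over `P` is an upper semicontinuous invariant function on `Y`; its maximum
cannot be positive.  Hence every incomplete `D_y` contains a slab `|⟨ν, x⟩| < c`, whose direction is
unique, and it follows that every leaf is developed injectively onto a convex set, saturated by
`ker ν`.  The leaves are the fibres of `Y → V / E`, so `dev` is injective.  Elements of the
holonomy which map every leaf to itself preserve all the hyperplanes `ker ν`, and elements moving
points towards the boundary of a leaf contract `ν`; as the action on the space of leaves is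
abelian, a subgroup of finite index preserves one hyperplane `ker ν`.  In the quotient by
`ker ν` the boundary of the leaves of one orbit gives an invariant hyperplane of `V`, or an
invariant function bounded below by a positive constant with infimum zero.  The former is
impossible because no proper convex subset of `V` is invariant (`NoInvariantStarShaped`).
-/

set_option autoImplicit false

open Set

namespace Pool.Agent.FOL.FoliatedRankOne

open Pool.Agent.Helper2.MK

/-- `G₀` is a group of linear automorphisms of the Euclidean space `F` of rank one type with simple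
eigenvalues: it is closed under adjoints, its positive elements are the exponentials of the elements
of the linear space `P` of symmetric operators, `S ^ 3 ∈ ℝ S` for `S ∈ P`, and the eigenvalue `‖S‖`
of `S` is simple for every nonzero `S ∈ P`. -/
structure RankOneType {F : Type*} [NormedAddCommGroup F] [InnerProductSpace ℝ F]
    (G₀ : Subgroup (F ≃L[ℝ] F)) (P : Submodule ℝ (F →L[ℝ] F)) : Prop where
  adj : ∀ A ∈ G₀, ∃ B ∈ G₀, ∀ x y : F, inner ℝ (A x) y = inner ℝ x (B y)
  symm : ∀ S ∈ P, ∀ x y : F, inner ℝ (S x) y = inner ℝ x (S y)
  pos : ∀ A : F ≃L[ℝ] F, (A ∈ G₀ ∧ (A : F →L[ℝ] F).IsPositive) ↔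
    ∃ S ∈ P, (A : F →L[ℝ] F) = NormedSpace.exp S
  cube : ∀ S ∈ P, ∃ c : ℝ, S * S * S = c • S
  simple : ∀ S ∈ P, S ≠ 0 →
    Module.finrank ℝ (Module.End.eigenspace (S : F →ₗ[ℝ] F) ‖S‖) = 1

/-- The family `ρ` of maps of `V` acts on the Euclidean space `F`, embedded in `V` by `ι`, through
a group of rank one type with simple eigenvalues. -/
def ActsByRankOne {F V G : Type*} [NormedAddCommGroup F] [InnerProductSpace ℝ F]
    (ρ : G → V → V) (ι : F → V) : Prop :=
  ∃ (G₀ : Subgroup (F ≃L[ℝ] F)) (P : Submodule ℝ (F →L[ℝ] F)),
    RankOneType G₀ P ∧ ∀ g, ∃ L ∈ G₀, ∀ x, ρ g (ι x) = ι (L x)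

variable {V G Y : Type*} [NormedAddCommGroup V] [InnerProductSpace ℝ V] [Group G]
  [TopologicalSpace Y] [MulAction G Y]

/-- The linear holonomy of `M` preserves `E` and acts on `V / E` through a finite group. -/
structure FiniteQuotient (M : AffineDeveloping V G Y) (E : Submodule ℝ V) : Prop where
  invariant : ∀ (g : G), ∀ x ∈ E, (M.hol g).linear x ∈ E
  finite : ∃ T : Finset G, ∀ g, ∃ t ∈ T, ∀ x, (M.hol g).linear x - (M.hol t).linear x ∈ E

/-- `E` is a plane, or the linear holonomy of `M` acts on `E` through a group of rank one type with
simple eigenvalues. -/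
def LeafType (M : AffineDeveloping V G Y) (E : Submodule ℝ V) : Prop :=
  Module.finrank ℝ E = 2 ∨ ActsByRankOne (fun g => (M.hol g).linear) (fun x : E => (x : V))

/-- Compact affine manifolds with parallel volume are complete if the linear holonomy preserves a
subspace `E`, acts on `V / E` through a finite group, and `E` is a plane or the action on `E` is of
rank one type with simple eigenvalues. -/
theorem result [FiniteDimensional ℝ V] [T2Space Y] [ConnectedSpace Y]
    (M : AffineDeveloping V G Y) (E : Submodule ℝ V) (hE : FiniteQuotient M E)
    (hleaf : LeafType M E) : ∃ e : Y ≃ₜ V, ⇑e = M.dev := by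
  rcases hleaf with h | ⟨G₀, P, h, hlin⟩
  · exact FOL.main_plane M E h ⟨hE.1, hE.2⟩
  · exact FOL.main_group M E ⟨hE.1, hE.2⟩ G₀ P ⟨h.1, h.2, h.3, h.4, h.5⟩ hlin

/-- Dimension three: a parallel `1`-form, up to sign. -/
theorem dimension_three [FiniteDimensional ℝ V] [T2Space Y] [ConnectedSpace Y]
    (h3 : Module.finrank ℝ V = 3) (M : AffineDeveloping V G Y) (φ : V →ₗ[ℝ] ℝ) (hφ : φ ≠ 0)
    (hinv : ∀ g, (∀ x, φ ((M.hol g).linear x) = φ x) ∨ ∀ x, φ ((M.hol g).linear x) = -φ x) :
    ∃ e : Y ≃ₜ V, ⇑e = M.dev := by
  classical
  refine result M (LinearMap.ker φ) ⟨fun g x hx => ?_, ?_⟩ (Or.inl ?_)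
  · rw [LinearMap.mem_ker] at hx ⊢
    rcases hinv g with h | h
    · rw [h, hx]
    · rw [h, hx, neg_zero]
  · by_cases hneg : ∃ h : G, ∀ x, φ ((M.hol h).linear x) = -φ x
    · obtain ⟨h, hh⟩ := hneg
      refine ⟨{1, h}, fun g => ?_⟩
      rcases hinv g with hg | hg
      · refine ⟨1, by simp, fun x => ?_⟩
        rw [LinearMap.mem_ker, map_sub, hg]
        have h1 : (M.hol 1).linear x = x := Helper2.RO.lin_one M x
        rw [h1, sub_self]
      · refine ⟨h, by simp, fun x => ?_⟩
        rw [LinearMap.mem_ker, map_sub, hg, hh, sub_self]
    · refine ⟨{1}, fun g => ⟨1, by simp, fun x => ?_⟩⟩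
      rcases hinv g with hg | hg
      · rw [LinearMap.mem_ker, map_sub, hg]
        have h1 : (M.hol 1).linear x = x := Helper2.RO.lin_one M x
        rw [h1, sub_self]
      · exact absurd ⟨g, hg⟩ hneg
  · have h1 := LinearMap.finrank_range_add_finrank_ker φ
    have h2 : LinearMap.range φ = ⊤ := LinearMap.range_eq_top.mpr (LinearMap.surjective hφ)
    rw [h2, finrank_top, Module.finrank_self, h3] at h1
    omega

end Pool.Agent.FOL.FoliatedRankOne
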