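import Pool.Agent.FOL.Sat
import Pool.Agent.Helper12.FOL.Step1

/-!
# Leaves are developed injectively onto convex sets; directions of incomplete leaves
-/

set_option autoImplicit false
set_option linter.unusedSectionVars false

open Set Filter Topology

namespace Pool.Agent.FOL

open Pool.Agent.Helper2.MK Pool.Agent.Helper50.HL Pool.Agent.Helper2.RO Pool.Agent.Helper2.RG

attribute [local instance] leafTop leafAct

/-- `top z` has rank one for every unit element `z` of `P`. -/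
def Rk1 {E : Type*} [NormedAddCommGroup E] [InnerProductSpace ℝ E]
    (P : Submodule ℝ (E →L[ℝ] E)) : Prop :=
  ∀ z ∈ P, ‖z‖ = 1 → ∃ ν : E, ‖ν‖ = 1 ∧ ∀ x, top z x = inner ℝ ν x • ν

section Rk

variable {E : Type*} [NormedAddCommGroup E] [InnerProductSpace ℝ E]
    {P : Submodule ℝ (E →L[ℝ] E)}

theorem Rk1.rank (h : Rk1 P) : ∀ z ∈ P, ‖z‖ = 1 → ∀ x y : E,
    ‖top z x‖ • top z y = ‖top z y‖ • top z x ∨
    ‖top z x‖ • top z y = -(‖top z y‖ • top z x) := by
  intro z hz hz1 x y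
  obtain ⟨ν, hν, hx⟩ := h z hz hz1
  rw [hx x, hx y, norm_smul, norm_smul, hν, mul_one, mul_one, Real.norm_eq_abs, Real.norm_eq_abs]
  set a : ℝ := inner ℝ ν x
  set b : ℝ := inner ℝ ν y
  rw [smul_smul, smul_smul, ← neg_smul]
  rcases abs_choice a with ha | ha <;> rcases abs_choice b with hb | hb <;> rw [ha, hb]
  · left; congr 1; ring
  · right; congr 1; ring
  · right; congr 1; ring
  · left; congr 1; ring

end Rk

variable {V G Y : Type*} [NormedAddCommGroup V] [InnerProductSpace ℝ V] [FiniteDimensional ℝ V]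
    [Group G] [TopologicalSpace Y] [T2Space Y] [MulAction G Y] (D : FData V G Y)

/-- `ν` is the direction of the leafwise star domain of `y`: it is saturated by the orthogonal
complement of `ν`, and `ν` spans the range of `top z` for a unit element `z` of `P`. -/
structure Dir (y : Y) (ν : D.E) : Prop where
  norm : ‖ν‖ = 1
  op : ∃ z ∈ D.P, ‖z‖ = 1 ∧ ∀ x, top z x = inner ℝ ν x • ν
  sat : ∀ e ∈ LD D y, ∀ e', inner ℝ ν e' = inner ℝ ν e → e' ∈ LD D y

theorem zero_mem_LD (y : Y) : (0 : D.E) ∈ LD D y := by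
  rw [mem_LD]
  simpa using mem_dom_self D.dev_local y

theorem isOpen_LD (y : Y) : IsOpen (LD D y) := by
  have h : Continuous fun e : D.E => D.dev y + (e : V) := by fun_prop
  exact (isOpen_dom (dev := D.dev) y).preimage h

section Leaf

variable {X : Type*} [TopologicalSpace X] [T2Space X] (q : X → D.E) (ι : X → Y)
    (hq : IsLocalHomeomorph q) (hL1 : ∀ x e, e ∈ dom q x ↔ e - q x ∈ LD D (ι x))
    (hL2 : ∀ x e, e ∈ dom q x →
      ι (sec q x e) = sec D.dev (ι x) (D.dev (ι x) + ((e - q x : D.E) : V)))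
    (hι : Function.Bijective ι) (hrk : Rk1 D.P)

include hq hL1 hL2 hι hrk

theorem slabs : Slabs q D.P where
  cartan := D.cartan
  rank := hrk.rank
  hdev := hq
  ex x hx := by
    have h1 : LD D (ι x) ≠ univ := fun h => hx ((LD_univ_iff D q ι hL1 x).1 h)
    obtain ⟨z, hz, hz1, c, hc, hs⟩ := slab_exists_of D q ι hq hL1 hL2 hι.2 (ι x) h1
    exact ⟨z, hz, hz1, c, hc, fun e he => (hL1 x e).2 (hs _ he)⟩
  uniq x hx z hz hz1 z' hz' hz1' c hc c' hc' hs hs' := by
    have h1 : LD D (ι x) ≠ univ := fun h => hx ((LD_univ_iff D q ι hL1 x).1 h)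
    refine slab_unique_of D q ι hq hL1 hL2 hι.2 (ι x) h1 hz hz1 hz' hz1' hc hc' ?_ ?_
    · intro e he
      have := (hL1 x (q x + e)).1 (hs _ (by rwa [add_sub_cancel_left]))
      rwa [add_sub_cancel_left] at this
    · intro e he
      have := (hL1 x (q x + e)).1 (hs' _ (by rwa [add_sub_cancel_left]))
      rwa [add_sub_cancel_left] at this

theorem LD_eq (x : X) : LD D (ι x) = {e | q x + e ∈ dom q x} := by
  ext e
  show e ∈ LD D (ι x) ↔ q x + e ∈ dom q x
  rw [hL1, add_sub_cancel_left]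

theorem LD_convex' (y : Y) : Convex ℝ (LD D y) := by
  obtain ⟨x, rfl⟩ := hι.2 y
  rw [LD_eq D q ι hq hL1 hL2 hι hrk x]
  intro e1 h1 e2 h2 a b ha hb hab
  have h1' : q x + e1 ∈ dom q x := h1
  have h2' : q x + e2 ∈ dom q x := h2
  have h3 := convex_dom (slabs D q ι hq hL1 hL2 hι hrk) x h1' h2' ha hb hab
  show q x + (a • e1 + b • e2) ∈ dom q x
  have h4 : a • (q x + e1) + b • (q x + e2) = q x + (a • e1 + b • e2) := by
    have : b = 1 - a := by linarith
    subst this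
    module
  rwa [h4] at h3

theorem LD_sec' {y : Y} {e : D.E} (he : e ∈ LD D y) :
    LD D (sec D.dev y (D.dev y + (e : V))) = {e' | e + e' ∈ LD D y} := by
  obtain ⟨x, rfl⟩ := hι.2 y
  have h1 : q x + e ∈ dom q x := by rw [hL1, add_sub_cancel_left]; exact he
  have h2 := hL2 x (q x + e) h1
  rw [add_sub_cancel_left] at h2
  rw [← h2, LD_eq D q ι hq hL1 hL2 hι hrk, (dom_sec (slabs D q ι hq hL1 hL2 hι hrk) h1).1,
    dev_sec hq h1]
  ext e'
  show q x + e + e' ∈ dom q x ↔ e + e' ∈ LD D (ι x)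
  rw [hL1]
  have : q x + e + e' - q x = e + e' := by abel
  rw [this]

theorem step' {y y' : Y} (h : Relation.EqvGen
    (fun a b => ∃ e ∈ LD D a, b = sec D.dev a (D.dev a + (e : V))) y y') :
    ∃ e ∈ LD D y, y' = sec D.dev y (D.dev y + (e : V)) := by
  have H := slabs D q ι hq hL1 hL2 hι hrk
  have key : ∀ y y' : Y, Relation.EqvGen
      (fun a b => ∃ e ∈ LD D a, b = sec D.dev a (D.dev a + (e : V))) y y' →
      ∀ x x', ι x = y → ι x' = y' →
      Relation.EqvGen (fun a b => ∃ e ∈ dom q a, b = sec q a e) x x' := by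
    intro y y' h
    induction h with
    | rel y y' h =>
      rintro x x' rfl rfl
      obtain ⟨e, he, he'⟩ := h
      have h1 : q x + e ∈ dom q x := by rw [hL1, add_sub_cancel_left]; exact he
      have h2 := hL2 x (q x + e) h1
      rw [add_sub_cancel_left, ← he'] at h2
      exact Relation.EqvGen.rel _ _ ⟨q x + e, h1, hι.1 h2.symm⟩
    | refl y =>
      rintro x x' rfl h
      rw [hι.1 h]
      exact Relation.EqvGen.refl _
    | symm y y' _ ih =>
      intro x x' h1 h2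
      exact (ih x' x h2 h1).symm
    | trans y z w _ _ ih1 ih2 =>
      intro x x' h1 h2
      obtain ⟨x'', hx''⟩ := hι.2 z
      exact (ih1 x x'' h1 hx'').trans _ _ _ (ih2 x'' x' hx'' h2)
  obtain ⟨x, rfl⟩ := hι.2 y
  obtain ⟨x', rfl⟩ := hι.2 y'
  obtain ⟨e, he, rfl⟩ := one_step H (key _ _ h x x' rfl rfl)
  exact ⟨e - q x, (hL1 x e).1 he, hL2 x e he⟩

theorem Dir.exists' {y : Y} (h : LD D y ≠ univ) : ∃ ν, Dir D y ν := by
  have H := slabs D q ι hq hL1 hL2 hι hrk
  obtain ⟨x, rfl⟩ := hι.2 y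
  have h1 : dom q x ≠ univ := fun h' => h ((LD_univ_iff D q ι hL1 x).2 h')
  obtain ⟨z, hz, hz1, c, hc, hs⟩ := H.ex x h1
  obtain ⟨ν, hν, htop⟩ := hrk z hz hz1
  refine ⟨ν, hν, ⟨z, hz, hz1, htop⟩, fun e he e' hee => ?_⟩
  have h2 : q x + e ∈ dom q x := by rw [hL1, add_sub_cancel_left]; exact he
  have h3 := dom_saturated H h1 hz hz1 hc hs (e := q x + e) (e' := q x + e') h2 (by
    rw [map_add, map_add, htop e, htop e', hee])
  rwa [hL1, add_sub_cancel_left] at h3

theorem Dir.unique' {y : Y} (h : LD D y ≠ univ) {ν ν' : D.E} (hν : Dir D y ν)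
    (hν' : Dir D y ν') : ν' = ν ∨ ν' = -ν := by
  obtain ⟨r, hr, hball⟩ := Metric.isOpen_iff.mp (isOpen_LD D y) 0 (zero_mem_LD D y)
  have key : ∀ {μ : D.E} {z : D.E →L[ℝ] D.E}, ‖μ‖ = 1 → (∀ x, top z x = inner ℝ μ x • μ) →
      (∀ e ∈ LD D y, ∀ e', inner ℝ μ e' = inner ℝ μ e → e' ∈ LD D y) →
      ∀ e, ‖top z e‖ < r → e ∈ LD D y := by
    intro μ z hμ htop hsat e he
    rw [htop] at he
    refine hsat (inner ℝ μ e • μ) (hball ?_) e ?_
    · rw [mem_ball_zero_iff]; exact he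
    · rw [inner_smul_right, real_inner_self_eq_norm_sq, hμ]; ring
  obtain ⟨z, hz, hz1, htop⟩ := hν.op
  obtain ⟨z', hz', hz1', htop'⟩ := hν'.op
  have hzz : z = z' := slab_unique_of D q ι hq hL1 hL2 hι.2 y h hz hz1 hz' hz1' hr hr
    (key hν.norm htop hν.sat) (key hν'.norm htop' hν'.sat)
  subst hzz
  have h1 := htop ν
  rw [htop' ν, real_inner_self_eq_norm_sq, hν.norm] at h1
  have h2 : (inner ℝ ν' ν : ℝ) • ν' = ν := by rw [h1]; simp
  have h3 : |(inner ℝ ν' ν : ℝ)| = 1 := by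
    have := congrArg (fun v : D.E => ‖v‖) h2
    rwa [norm_smul, hν'.norm, hν.norm, mul_one, Real.norm_eq_abs] at this
  rcases (abs_eq one_pos.le).mp h3 with h4 | h4
  · left
    rw [h4, one_smul] at h2
    exact h2
  · right
    rw [h4, neg_smul, one_smul] at h2
    rw [← h2, neg_neg]

end Leaf

/-- functionals with nested kernels are proportional -/
theorem prop_of_ker {E : Type*} [NormedAddCommGroup E] [InnerProductSpace ℝ E] {ν : E}
    (hν : ‖ν‖ = 1) {f : E →ₗ[ℝ] ℝ} (h : ∀ k, inner ℝ ν k = 0 → f k = 0) (x : E) :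
    f x = f ν * inner ℝ ν x := by
  have h1 := h (x - inner ℝ ν x • ν) (by
    rw [inner_sub_right, inner_smul_right, real_inner_self_eq_norm_sq, hν]; ring)
  rw [map_sub, map_smul, smul_eq_mul] at h1
  linarith

/-- directions are equivariant -/
theorem Dir.smul_aux {y : Y} (g : G) (h : LD D y ≠ univ) {ν ν' : D.E} (hν : Dir D y ν)
    (hν' : Dir D (g • y) ν') : ∃ c : ℝ, c ≠ 0 ∧ ∀ x, inner ℝ ν' (LE D g x) = c * inner ℝ ν x := by
  have hker : ∀ k, inner ℝ ν k = 0 → inner ℝ ν' (LE D g k) = 0 := by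
    intro k hk
    by_contra hne
    apply h
    rw [eq_univ_iff_forall]
    intro e
    rw [← LD_smul D g y]
    -- `t • L k ∈ LD (g y)` for every `t`
    set a : ℝ := inner ℝ ν' (LE D g k) with ha
    set t : ℝ := inner ℝ ν' (LE D g e) / a with ht
    have h1 : t • k ∈ LD D y := hν.sat 0 (zero_mem_LD D y) _ (by
      rw [inner_smul_right, hk, inner_zero_right, mul_zero])
    have h2 : LE D g (t • k) ∈ LD D (g • y) := (LD_smul D g y _).2 h1
    refine hν'.sat _ h2 _ ?_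
    rw [map_smul, inner_smul_right, ← ha, ht, div_mul_cancel₀ _ hne]
  have h1 := prop_of_ker hν.norm (f := (innerₛₗ ℝ ν').comp (LE D g)) (fun k hk => hker k hk)
  refine ⟨inner ℝ ν' (LE D g ν), ?_, fun x => h1 x⟩
  intro h0
  have h2 := h1 (LE D g⁻¹ ν')
  have h3 : ((innerₛₗ ℝ ν').comp (LE D g)) (LE D g⁻¹ ν') = inner ℝ ν' ν' := by
    show inner ℝ ν' (LE D g (LE D g⁻¹ ν')) = _
    rw [LE_inv']
  have h4 : ((innerₛₗ ℝ ν').comp (LE D g)) ν = 0 := h0
  rw [h3, h4, zero_mul, real_inner_self_eq_norm_sq, hν'.norm] at h2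
  norm_num at h2

section Final

variable (hrk : Rk1 D.P)
include hrk

theorem LD_convex (y : Y) : Convex ℝ (LD D y) := by
  have := leaf_t2 D
  exact LD_convex' D (qE D) (ofLeaf D) (qE_local D) (leaf_L1 D) (leaf_L2 D)
    ⟨fun _ _ h => h, ofLeaf_surjective D⟩ hrk y

/-- points of one leaf see the same set -/
theorem LD_sec {y : Y} {e : D.E} (he : e ∈ LD D y) :
    LD D (sec D.dev y (D.dev y + (e : V))) = {e' | e + e' ∈ LD D y} := by
  have := leaf_t2 D
  exact LD_sec' D (qE D) (ofLeaf D) (qE_local D) (leaf_L1 D) (leaf_L2 D)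
    ⟨fun _ _ h => h, ofLeaf_surjective D⟩ hrk he

theorem leaf_step {y y' : Y} (h : Relation.EqvGen
    (fun a b => ∃ e ∈ LD D a, b = sec D.dev a (D.dev a + (e : V))) y y') :
    ∃ e ∈ LD D y, y' = sec D.dev y (D.dev y + (e : V)) := by
  have := leaf_t2 D
  exact step' D (qE D) (ofLeaf D) (qE_local D) (leaf_L1 D) (leaf_L2 D)
    ⟨fun _ _ h => h, ofLeaf_surjective D⟩ hrk h

theorem Dir.exists {y : Y} (h : LD D y ≠ univ) : ∃ ν, Dir D y ν := by
  have := leaf_t2 D
  exact Dir.exists' D (qE D) (ofLeaf D) (qE_local D) (leaf_L1 D) (leaf_L2 D)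
    ⟨fun _ _ h => h, ofLeaf_surjective D⟩ hrk h

theorem Dir.unique {y : Y} (h : LD D y ≠ univ) {ν ν' : D.E} (hν : Dir D y ν)
    (hν' : Dir D y ν') : ν' = ν ∨ ν' = -ν := by
  have := leaf_t2 D
  exact Dir.unique' D (qE D) (ofLeaf D) (qE_local D) (leaf_L1 D) (leaf_L2 D)
    ⟨fun _ _ h => h, ofLeaf_surjective D⟩ hrk h hν hν'

omit hrk in
theorem LD_smul_ne (g : G) {y : Y} (h : LD D y ≠ univ) : LD D (g • y) ≠ univ := by
  intro h'
  apply h
  rw [eq_univ_iff_forall]
  intro e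
  rw [← LD_smul D g y, h']
  trivial

/-- directions are equivariant -/
theorem Dir.smul {y : Y} (g : G) (h : LD D y ≠ univ) {ν : D.E} (hν : Dir D y ν) :
    ∃ ν', Dir D (g • y) ν' ∧ ∃ c : ℝ, c ≠ 0 ∧
      ∀ x, inner ℝ ν' (LE D g x) = c * inner ℝ ν x := by
  obtain ⟨ν', hν'⟩ := Dir.exists D hrk (LD_smul_ne D g h)
  exact ⟨ν', hν', Dir.smul_aux D g h hν hν'⟩

/-- directions are constant along leaves -/
theorem Dir.move {y : Y} {e : D.E} (he : e ∈ LD D y) {ν : D.E} (hν : Dir D y ν) :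
    Dir D (sec D.dev y (D.dev y + (e : V))) ν := by
  refine ⟨hν.norm, hν.op, ?_⟩
  rw [LD_sec D hrk he]
  intro e1 h1 e2 h12
  refine hν.sat _ h1 _ ?_
  rw [inner_add_right, inner_add_right, h12]

theorem LD_sec_ne {y : Y} {e : D.E} (he : e ∈ LD D y) (h : LD D y ≠ univ) :
    LD D (sec D.dev y (D.dev y + (e : V))) ≠ univ := by
  intro h'
  apply h
  rw [LD_sec D hrk he, eq_univ_iff_forall] at h'
  rw [eq_univ_iff_forall]
  intro e'
  have := h' (e' - e)
  rwa [mem_ofPred_eq, add_sub_cancel] at this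

variable {W : Type*} [NormedAddCommGroup W] [NormedSpace ℝ W] {p : V →L[ℝ] W}
  (hker : ∀ x, p x = 0 ↔ x ∈ D.E)
  (hchain : ∀ y y' : Y, p (D.dev y) = p (D.dev y') → Relation.EqvGen
    (fun a b => ∃ e, p e = 0 ∧ D.dev a + e ∈ dom D.dev a ∧ b = sec D.dev a (D.dev a + e)) y y')
include hker hchain

theorem fibre_step {y y' : Y} (h : p (D.dev y) = p (D.dev y')) :
    ∃ e ∈ LD D y, y' = sec D.dev y (D.dev y + (e : V)) := by
  refine leaf_step D hrk ?_
  have h1 := hchain y y' h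
  refine Relation.EqvGen.mono (fun a b hab => ?_) _ _ h1
  obtain ⟨e, he, h2, h3⟩ := hab
  exact ⟨⟨e, (hker e).1 he⟩, h2, h3⟩

theorem Dir.fibre {y y' : Y} (h : p (D.dev y) = p (D.dev y')) {ν : D.E} (hν : Dir D y ν) :
    Dir D y' ν := by
  obtain ⟨e, he, rfl⟩ := fibre_step D hrk hker hchain h
  exact Dir.move D hrk he hν

theorem LD_ne_fibre {y y' : Y} (h : p (D.dev y) = p (D.dev y')) (h0 : LD D y ≠ univ) :
    LD D y' ≠ univ := by
  obtain ⟨e, he, rfl⟩ := fibre_step D hrk hker hchain h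
  exact LD_sec_ne D hrk he h0

theorem dev_injective : Function.Injective D.dev := by
  intro y y' h
  obtain ⟨e, he, h1⟩ := fibre_step D hrk hker hchain (congrArg p h)
  have h2 : D.dev y' = D.dev y + (e : V) := by
    rw [h1]; exact dev_sec D.dev_local he
  have h3 : (e : V) = 0 := by
    rw [h] at h2
    exact (left_eq_add.mp h2)
  rw [h1, h3, add_zero, sec_self D.dev_local]

/-- if all leaves are complete then the developing map is a homeomorphism -/
theorem complete_of_leaves (honto : ∀ w, ∃ y, p (D.dev y) = w) (hall : ∀ y, LD D y = univ) :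
    ∃ E : Y ≃ₜ V, ⇑E = D.dev := by
  have hsurj : Function.Surjective D.dev := by
    intro v
    obtain ⟨y, hy⟩ := honto (p v)
    have h1 : v - D.dev y ∈ D.E := by
      rw [← hker, map_sub, hy, sub_self]
    have h2 : (⟨v - D.dev y, h1⟩ : D.E) ∈ LD D y := by rw [hall]; trivial
    refine ⟨sec D.dev y v, ?_⟩
    have h3 := dev_sec D.dev_local h2
    simpa using h3
  exact ⟨D.dev_local.toHomeomorphOfBijective ⟨dev_injective D hrk hker hchain, hsurj⟩, rfl⟩

end Final

end Pool.Agent.FOL
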