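import Pool.Agent.FOL.Defs

/-!
# Star domains of local homeomorphisms with slabs (rank one type, `rank top = 1`)

`q : X → E` is a local homeomorphism such that every star domain is everything or contains a slab
around its centre, of a unique direction.  Then the star domains are convex, saturated, and two
points which see each other have the same star domain.
-/

set_option autoImplicit false
set_option linter.unusedSectionVars false

open Set Filter Topology

namespace Pool.Agent.FOL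

open Pool.Agent.Helper2.MK Pool.Agent.Helper50.HL Pool.Agent.Helper2.RO

section Sat

variable {E W X : Type*} [NormedAddCommGroup E] [NormedSpace ℝ E] [FiniteDimensional ℝ E]
  [NormedAddCommGroup W]
  [NormedSpace ℝ W] [TopologicalSpace X] [T2Space X] {q : X → E}

/-- the saturation of a convex chart along which there are slabs -/
theorem saturated_chart' (hdev : IsLocalHomeomorph q) {F : E →L[ℝ] W} {y : X} {C : Set E}
    (hC : IsOpen C) (hconv : Convex ℝ C)
    (hy : q y ∈ C) (hCd : C ⊆ dom q y)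
    (hslab : ∀ e ∈ C, ∃ c > 0, ∀ x, ‖F (x - e)‖ < c → x ∈ dom q (sec q y e)) :
    F ⁻¹' (F '' C) ⊆ dom q y := by
  classical
  have hslab' : ∀ e, ∃ c : ℝ, e ∈ C → 0 < c ∧ ∀ x, ‖F (x - e)‖ < c → x ∈ dom q (sec q y e) := by
    intro e
    by_cases he : e ∈ C
    · obtain ⟨c, hc, h⟩ := hslab e he
      exact ⟨c, fun _ => ⟨hc, h⟩⟩
    · exact ⟨0, fun h => absurd h he⟩
  choose c hc' using hslab'
  have hc : ∀ e ∈ C, 0 < c e := fun e he => (hc' e he).1
  have hcs : ∀ e ∈ C, ∀ x, ‖F (x - e)‖ < c e → x ∈ dom q (sec q y e) := fun e he => (hc' e he).2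
  set C' : Set E := F ⁻¹' (F '' C) with hC'
  have hCC' : C ⊆ C' := fun x hx => ⟨x, hx, rfl⟩
  have hC'o : IsOpen C' := by
    rw [isOpen_iff_mem_nhds]
    rintro p ⟨e, he, hep⟩
    have h1 : Tendsto (fun p' : E => e + (p' - p)) (𝓝 p) (𝓝 e) := by
      have h2 : Continuous fun p' : E => e + (p' - p) := by fun_prop
      simpa using h2.tendsto p
    filter_upwards [h1.eventually (hC.mem_nhds he)] with p' hp'
    refine ⟨e + (p' - p), hp', ?_⟩
    rw [map_add, map_sub, hep]
    abel
  have hC'c : Convex ℝ C' :=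
    (hconv.linear_image (F : E →ₗ[ℝ] W)).linear_preimage (F : E →ₗ[ℝ] W)
  -- the basic agreement
  have key : ∀ e ∈ C, ∀ e' ∈ C, ∀ p, ‖F (e' - e)‖ < c e → ‖F (p - e)‖ < c e →
      p ∈ dom q (sec q y e') ∧ sec q (sec q y e') p = sec q (sec q y e) p := by
    intro e he e' he' p h1 h2
    have hdq : q (sec q y e) = e := dev_sec hdev (hCd he)
    have e1 := rebase hdev hC hconv hy hCd he
    have e2 : sec q (sec q y e) e' = sec q y e' := e1.2 he'
    have e3 := rebase hdev (y := sec q y e) (C := {x | ‖F (x - e)‖ < c e})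
      (isOpen_tball F _ _) (convex_tball F _ _) (by
        show ‖F (q (sec q y e) - e)‖ < _
        rw [hdq, sub_self, map_zero, norm_zero]
        exact hc e he) (fun x hx => hcs e he x hx) (x := e') h1
    rw [e2] at e3
    exact ⟨e3.1 h2, e3.2 h2⟩
  have hch : ∀ p : E, ∃ e : E, p ∈ C' → e ∈ C ∧ F e = F p := by
    intro p
    by_cases hp : p ∈ C'
    · obtain ⟨e, he, hep⟩ := hp
      exact ⟨e, fun _ => ⟨he, hep⟩⟩
    · exact ⟨0, fun h => absurd h hp⟩
  choose Q hQ using hch
  -- well defined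
  have hwd : ∀ e ∈ C, ∀ e' ∈ C, ∀ p, F e = F p → F e' = F p →
      p ∈ dom q (sec q y e') ∧ sec q (sec q y e') p = sec q (sec q y e) p := by
    intro e he e' he' p h1 h2
    refine key e he e' he' p ?_ ?_
    · rw [map_sub, h2, h1, sub_self, norm_zero]
      exact hc e he
    · rw [map_sub, h1, sub_self, norm_zero]
      exact hc e he
  have hsec : IsSec q C' (fun p => sec q (sec q y (Q p)) p) := by
    constructor
    · intro p hp
      obtain ⟨hQC, hQp⟩ := hQ p hp
      set e := Q p with he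
      have hdq : q (sec q y e) = e := dev_sec hdev (hCd hQC)
      have hpd : p ∈ dom q (sec q y e) := (hwd e hQC e hQC p hQp hQp).1
      have h1 : ContinuousAt (sec q (sec q y e)) p :=
        (isSec_sec hdev (sec q y e)).1.continuousAt ((isOpen_dom _).mem_nhds hpd)
      refine ContinuousAt.continuousWithinAt (h1.congr ?_)
      have h2 : Tendsto (fun p' : E => e + (p' - p)) (𝓝 p) (𝓝 e) := by
        have h2 : Continuous fun p' : E => e + (p' - p) := by fun_prop
        simpa using h2.tendsto p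
      have h3 : ∀ᶠ p' in 𝓝 p, ‖F (p' - e)‖ < c e := by
        refine (isOpen_tball F e (c e)).mem_nhds ?_
        show ‖F (p - e)‖ < _
        rw [map_sub, hQp, sub_self, norm_zero]
        exact hc e hQC
      have h4 : ∀ᶠ p' in 𝓝 p, ‖F (e + (p' - p) - e)‖ < c e := by
        refine h2.eventually ((isOpen_tball F e (c e)).mem_nhds ?_)
        show ‖F (e - e)‖ < _
        rw [sub_self, map_zero, norm_zero]
        exact hc e hQC
      filter_upwards [h2.eventually (hC.mem_nhds hQC), h3, h4] with p' h5 h6 h7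
      have h8 : F (e + (p' - p)) = F p' := by
        rw [map_add, map_sub, hQp]
        abel
      have h9 : p' ∈ C' := ⟨_, h5, h8⟩
      obtain ⟨hQC', hQp'⟩ := hQ p' h9
      rw [← (key e hQC _ h5 p' h7 h6).2, (hwd _ h5 _ hQC' p' h8 hQp').2]
    · intro p hp
      obtain ⟨hQC, hQp⟩ := hQ p hp
      exact dev_sec hdev (hwd _ hQC _ hQC p hQp hQp).1
  have hsy : (fun p => sec q (sec q y (Q p)) p) (q y) = y := by
    have hyC' := hCC' hy
    obtain ⟨hQC, hQp⟩ := hQ _ hyC'
    show sec q (sec q y (Q (q y))) (q y) = y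
    rw [(hwd _ hy _ hQC (q y) rfl hQp).2, sec_self hdev, sec_self hdev]
  exact (chart_convex hdev hC'o hC'c (hCC' hy) hsec hsy).1

end Sat

section Slabs

variable {E X : Type*} [NormedAddCommGroup E] [InnerProductSpace ℝ E] [FiniteDimensional ℝ E]
  [TopologicalSpace X]
  [T2Space X]

/-- `q : X → E` is a local homeomorphism such that every star domain is everything or contains a
slab around its centre, of a unique direction in `P`, and `rank (top z) = 1`. -/
structure Slabs (q : X → E) (P : Submodule ℝ (E →L[ℝ] E)) : Prop where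
  cartan : IsCartan P
  rank : ∀ z ∈ P, ‖z‖ = 1 → ∀ x y : E, ‖top z x‖ • top z y = ‖top z y‖ • top z x ∨
    ‖top z x‖ • top z y = -(‖top z y‖ • top z x)
  hdev : IsLocalHomeomorph q
  ex : ∀ x, dom q x ≠ univ → ∃ z ∈ P, ‖z‖ = 1 ∧ ∃ c > 0, ∀ e, ‖top z (e - q x)‖ < c → e ∈ dom q x
  uniq : ∀ x, dom q x ≠ univ → ∀ z ∈ P, ‖z‖ = 1 → ∀ z' ∈ P, ‖z'‖ = 1 → ∀ c > 0, ∀ c' > 0,
    (∀ e, ‖top z (e - q x)‖ < c → e ∈ dom q x) → (∀ e, ‖top z' (e - q x)‖ < c' → e ∈ dom q x) →
    z = z'

variable {q : X → E} {P : Submodule ℝ (E →L[ℝ] E)} (H : Slabs q P)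
include H

/-- if a point seen in a convex chart is complete then so is the centre -/
theorem univ_of_univ {x : X} {C : Set E} (hC : IsOpen C) (hconv : Convex ℝ C) (hx : q x ∈ C)
    (hCd : C ⊆ dom q x) {e : E} (he : e ∈ C) (h : dom q (sec q x e) = univ) :
    dom q x = univ := by
  have h1 := rebase H.hdev hC hconv hx hCd he
  have h2 : sec q (sec q x e) (q x) = x := by rw [h1.2 hx, sec_self H.hdev]
  have h3 := rebase H.hdev (y := sec q x e) isOpen_univ convex_univ (mem_univ _)
    (by rw [h]) (mem_univ (q x))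
  rw [h2] at h3
  exact eq_univ_of_univ_subset h3.1

/-- slabs move along -/
theorem slab_move {x : X} {e : E} (z : E →L[ℝ] E) {c : ℝ}
    (hs : ∀ e', ‖top z (e' - q x)‖ < c → e' ∈ dom q x) (he : ‖top z (e - q x)‖ < c) :
    ∃ c' > 0, ∀ e', ‖top z (e' - e)‖ < c' → e' ∈ dom q (sec q x e) := by
  have hc : 0 < c := (norm_nonneg _).trans_lt he
  have h1 := rebase H.hdev (y := x) (C := {e' | ‖top z (e' - q x)‖ < c})
    (isOpen_tball (top z) _ _) (convex_tball (top z) _ _) (by
      show ‖top z (q x - q x)‖ < c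
      rwa [sub_self, map_zero, norm_zero]) (fun e' he' => hs e' he') (x := e) he
  refine ⟨c - ‖top z (e - q x)‖, by linarith, fun e' he' => h1.1 ?_⟩
  show ‖top z (e' - q x)‖ < c
  have h2 : e' - q x = (e' - e) + (e - q x) := by abel
  rw [h2, map_add]
  exact (norm_add_le _ _).trans_lt (by linarith)

/-- the direction of the slab is constant along a convex chart -/
theorem slab_along {x : X} (hx0 : dom q x ≠ univ) {z : E →L[ℝ] E} (hz : z ∈ P) (hz1 : ‖z‖ = 1)
    {c : ℝ} (hc : 0 < c) (hs : ∀ e, ‖top z (e - q x)‖ < c → e ∈ dom q x)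
    {C : Set E} (hC : IsOpen C) (hconv : Convex ℝ C) (hx : q x ∈ C) (hCd : C ⊆ dom q x) :
    ∀ e ∈ C, ∃ c > 0, ∀ e', ‖top z (e' - e)‖ < c → e' ∈ dom q (sec q x e) := by
  have hdq : ∀ e ∈ C, q (sec q x e) = e := fun e he => dev_sec H.hdev (hCd he)
  have hne : ∀ e ∈ C, dom q (sec q x e) ≠ univ := fun e he h =>
    hx0 (univ_of_univ H hC hconv hx hCd he h)
  -- at every point of `C` the slab spreads to a neighbourhood
  have hloc : ∀ e ∈ C, ∀ z ∈ P, ∀ c > 0, (∀ e', ‖top z (e' - e)‖ < c → e' ∈ dom q (sec q x e)) →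
      ∀ᶠ e1 in 𝓝 e, e1 ∈ C → ∃ c' > 0, ∀ e', ‖top z (e' - e1)‖ < c' →
        e' ∈ dom q (sec q x e1) := by
    intro e he z _ c hc h
    have h2 : ∀ᶠ e1 in 𝓝 e, ‖top z (e1 - e)‖ < c := by
      refine (isOpen_tball (top z) e c).mem_nhds ?_
      show ‖top z (e - e)‖ < c
      rwa [sub_self, map_zero, norm_zero]
    filter_upwards [h2] with e1 h3 h4
    have h5 := slab_move H (x := sec q x e) (e := e1) z (c := c) (by rwa [hdq e he])
      (by rwa [hdq e he])
    rwa [(rebase H.hdev hC hconv hx hCd he).2 h4] at h5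
  set A : Set E := {e | ∃ c > 0, ∀ e', ‖top z (e' - e)‖ < c → e' ∈ dom q (sec q x e)} with hA
  have hsub : C ⊆ A := by
    have hpre : IsPreconnected C := hconv.isPreconnected
    by_contra hcon
    rw [not_subset] at hcon
    obtain ⟨e1, he1, he1A⟩ := hcon
    -- two open sets
    let U : Set E := {e | ∃ V ∈ 𝓝 e, ∀ e' ∈ V, e' ∈ C → e' ∈ A}
    let W : Set E := {e | ∃ V ∈ 𝓝 e, ∀ e' ∈ V, e' ∈ C → e' ∉ A}
    have hU : IsOpen U := by
      rw [isOpen_iff_mem_nhds]
      rintro e ⟨V, hV, h⟩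
      filter_upwards [eventually_mem_nhds_iff.mpr hV] with e' he'
      exact ⟨V, he', h⟩
    have hW : IsOpen W := by
      rw [isOpen_iff_mem_nhds]
      rintro e ⟨V, hV, h⟩
      filter_upwards [eventually_mem_nhds_iff.mpr hV] with e' he'
      exact ⟨V, he', h⟩
    have hAU : ∀ e ∈ C, e ∈ A → e ∈ U := by
      rintro e he ⟨c, hc, h⟩
      have h1 := hloc e he z hz c hc h
      exact ⟨_, h1, fun e' he' he'C => he' he'C⟩
    have hAW : ∀ e ∈ C, e ∉ A → e ∈ W := by
      intro e he heA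
      obtain ⟨z', hz', hz1', c', hc', h'⟩ := H.ex _ (hne e he)
      rw [hdq e he] at h'
      have hzz : z' ≠ z := by
        rintro rfl
        exact heA ⟨c', hc', h'⟩
      have h1 := hloc e he z' hz' c' hc' h'
      refine ⟨_, h1, fun e' he' he'C => ?_⟩
      rintro ⟨c2, hc2, h2⟩
      obtain ⟨c3, hc3, h3⟩ := he' he'C
      apply hzz
      refine H.uniq _ (hne e' he'C) z' hz' hz1' z hz hz1 c3 hc3 c2 hc2 ?_ ?_
      · rwa [hdq e' he'C]
      · rwa [hdq e' he'C]
    have hcov : C ⊆ U ∪ W := by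
      intro e he
      by_cases h : e ∈ A
      · exact Or.inl (hAU e he h)
      · exact Or.inr (hAW e he h)
    have hxA : q x ∈ A := ⟨c, hc, by rwa [sec_self H.hdev]⟩
    obtain ⟨e2, he2, ⟨V1, hV1, h1⟩, ⟨V2, hV2, h2⟩⟩ :=
      hpre U W hU hW hcov ⟨q x, hx, hAU _ hx hxA⟩ ⟨e1, he1, hAW _ he1 he1A⟩
    exact h2 e2 (mem_of_mem_nhds hV2) he2 (h1 e2 (mem_of_mem_nhds hV1) he2)
  intro e he
  exact hsub he

/-- saturation -/
theorem dom_saturated {x : X} (hx0 : dom q x ≠ univ) {z : E →L[ℝ] E} (hz : z ∈ P)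
    (hz1 : ‖z‖ = 1) {c : ℝ} (hc : 0 < c) (hs : ∀ e, ‖top z (e - q x)‖ < c → e ∈ dom q x)
    {e e' : E} (he : e ∈ dom q x) (h : top z e = top z e') : e' ∈ dom q x := by
  obtain ⟨C, hC, hconv, hy, hxC, s, hs', hsy⟩ := he
  have hCd := (chart_convex H.hdev hC hconv hy hs' hsy).1
  exact saturated_chart' H.hdev (F := top z) hC hconv hy hCd
    (slab_along H hx0 hz hz1 hc hs hC hconv hy hCd) ⟨e, hxC, h⟩

/-- the star domains are convex -/
theorem convex_dom (x : X) : Convex ℝ (dom q x) := by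
  by_cases hx0 : dom q x = univ
  · rw [hx0]; exact convex_univ
  obtain ⟨z, hz, hz1, c, hc, hs⟩ := H.ex x hx0
  have hsat := fun (e e' : E) (he : e ∈ dom q x) (h : top z e = top z e') =>
    dom_saturated H hx0 hz hz1 hc hs he h
  have hstar := starConvex_dom (dev := q) x
  have hself := mem_dom_self H.hdev x
  intro e1 h1 e2 h2 a b ha hb hab
  -- it suffices to find `t` and `i` with the same `top` value
  set u1 := top z (e1 - q x) with hu1
  set u2 := top z (e2 - q x) with hu2
  have hm : top z (a • e1 + b • e2 - q x) = a • u1 + b • u2 := by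
    have h3 : a • e1 + b • e2 - q x = a • (e1 - q x) + b • (e2 - q x) := by
      have h4 : a • q x + b • q x = q x := by rw [← add_smul, hab, one_smul]
      nth_rewrite 1 [← h4]
      module
    rw [h3, map_add, map_smul, map_smul]
  -- `a u1 + b u2` is `t u1` or `t u2` with `0 ≤ t ≤ 1`
  have hkey : ∃ t : ℝ, 0 ≤ t ∧ t ≤ 1 ∧ (a • u1 + b • u2 = t • u1 ∨ a • u1 + b • u2 = t • u2) := by
    have hn1 := norm_nonneg u1
    have hn2 := norm_nonneg u2
    by_cases hz1' : ‖u1‖ = 0
    · have h0 : u1 = 0 := norm_eq_zero.mp hz1'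
      exact ⟨b, hb, by linarith, Or.inr (by rw [h0, smul_zero, zero_add])⟩
    by_cases hz2' : ‖u2‖ = 0
    · have h0 : u2 = 0 := norm_eq_zero.mp hz2'
      exact ⟨a, ha, by linarith, Or.inl (by rw [h0, smul_zero, add_zero])⟩
    have hp1 : 0 < ‖u1‖ := lt_of_le_of_ne hn1 (Ne.symm hz1')
    have hp2 : 0 < ‖u2‖ := lt_of_le_of_ne hn2 (Ne.symm hz2')
    -- `u2 = s • u1` with `s = ± ‖u2‖ / ‖u1‖`
    have hs : ∃ s : ℝ, s ≠ 0 ∧ u2 = s • u1 := by
      rcases H.rank z hz hz1 (e1 - q x) (e2 - q x) with h | h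
      · refine ⟨‖u1‖⁻¹ * ‖u2‖, by positivity, ?_⟩
        rw [mul_smul, ← h, smul_smul, inv_mul_cancel₀ hz1', one_smul]
      · refine ⟨-(‖u1‖⁻¹ * ‖u2‖), neg_ne_zero.mpr (by positivity), ?_⟩
        rw [neg_smul, mul_smul, ← smul_neg, ← h, smul_smul, inv_mul_cancel₀ hz1', one_smul]
    obtain ⟨s, hs0, hs⟩ := hs
    rw [hs]
    have hsum : a • u1 + b • s • u1 = (a + b * s) • u1 := by module
    rw [hsum]
    by_cases h3 : 0 ≤ a + b * s
    · by_cases h4 : a + b * s ≤ 1
      · exact ⟨a + b * s, h3, h4, Or.inl rfl⟩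
      · push Not at h4
        have h5 : 1 < s := by nlinarith
        refine ⟨(a + b * s) / s, div_nonneg h3 (by linarith), ?_, Or.inr ?_⟩
        · rw [div_le_one (by linarith)]
          nlinarith
        · rw [smul_smul, div_mul_cancel₀ _ hs0]
    · push Not at h3
      have h5 : s < 0 := by nlinarith
      refine ⟨(a + b * s) / s, div_nonneg_of_nonpos h3.le h5.le, ?_, Or.inr ?_⟩
      · rw [div_le_one_of_neg h5]
        nlinarith
      · rw [smul_smul, div_mul_cancel₀ _ hs0]
  obtain ⟨t, ht0, ht1, ht⟩ := hkey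
  have hseg : ∀ e ∈ dom q x, q x + t • (e - q x) ∈ dom q x := by
    intro e he
    refine (starConvex_iff_segment_subset.mp hstar) he ⟨1 - t, t, by linarith, ht0, by ring, ?_⟩
    module
  have htop : ∀ e, top z (q x + t • (e - q x)) = top z (q x) + t • top z (e - q x) := by
    intro e
    rw [map_add, map_smul]
  have hm' : top z (a • e1 + b • e2) = top z (q x) + (a • u1 + b • u2) := by
    rw [← hm, map_sub]; abel
  rcases ht with ht | ht
  · refine hsat _ _ (hseg e1 h1) ?_
    rw [htop, hm', ht]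
  · refine hsat _ _ (hseg e2 h2) ?_
    rw [htop, hm', ht]

/-- points which see each other have the same star domain and section -/
theorem dom_sec {x : X} {e : E} (he : e ∈ dom q x) :
    dom q (sec q x e) = dom q x ∧ EqOn (sec q (sec q x e)) (sec q x) (dom q x) := by
  have h1 := rebase H.hdev (isOpen_dom x) (convex_dom H x) (mem_dom_self H.hdev x)
    Subset.rfl he
  have h2 : sec q (sec q x e) (q x) = x := by
    rw [h1.2 (mem_dom_self H.hdev x), sec_self H.hdev]
  have h3 := rebase H.hdev (isOpen_dom (sec q x e)) (convex_dom H (sec q x e))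
    (mem_dom_self H.hdev _) Subset.rfl (h1.1 (mem_dom_self H.hdev x))
  rw [h2] at h3
  exact ⟨Subset.antisymm h3.1 h1.1, h1.2⟩

/-- the leaves are described by one step -/
theorem one_step {x y : X} (h : Relation.EqvGen (fun a b => ∃ e ∈ dom q a, b = sec q a e) x y) :
    ∃ e ∈ dom q x, y = sec q x e := by
  induction h with
  | rel x y h => exact h
  | refl x => exact ⟨q x, mem_dom_self H.hdev x, (sec_self H.hdev x).symm⟩
  | symm x y _ ih =>
    obtain ⟨e, he, rfl⟩ := ih
    have h1 := dom_sec H he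
    refine ⟨q x, ?_, ?_⟩
    · rw [h1.1]; exact mem_dom_self H.hdev x
    · rw [h1.2 (mem_dom_self H.hdev x), sec_self H.hdev]
  | trans x y z _ _ ih1 ih2 =>
    obtain ⟨e, he, rfl⟩ := ih1
    obtain ⟨e', he', rfl⟩ := ih2
    have h1 := dom_sec H he
    rw [h1.1] at he'
    exact ⟨e', he', h1.2 he'⟩

end Slabs

end Pool.Agent.FOL
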